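import Mathlib

open Set Filter Topology MeasureTheory

namespace Pool.Agent.X19.SP

/-- `ρ = x^(2m) + y^(2n)`. -/
def rho (m n : ℕ) (x y : ℝ) : ℝ := x ^ (2 * m) + y ^ (2 * n)

/-- `S` is a spiral trajectory near the origin of the planar system with parameters
`m, n, k, σ`: the points `(x t, y t)`, for `t ≥ t₀` (if `σ = -1`) or `t ≤ t₀` (if `σ = 1`), of a
solution different from the origin that tends to the origin as `t → ∞` (resp. `t → -∞`). -/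
def IsSpiral (m n k : ℕ) (σ : ℝ) (S : Set (ℝ × ℝ)) : Prop :=
  ∃ (x y : ℝ → ℝ) (t₀ : ℝ),
    (∀ t, 0 ≤ -σ * (t - t₀) →
      HasDerivAt x (-(n * y t ^ (2 * n - 1)) +
        σ * n * x t ^ m * y t ^ (n - 1) * rho m n (x t) (y t) ^ k) t ∧
      HasDerivAt y (m * x t ^ (2 * m - 1) +
        σ * m * x t ^ (m - 1) * y t ^ n * rho m n (x t) (y t) ^ k) t) ∧
    (∀ t, 0 ≤ -σ * (t - t₀) → (x t, y t) ≠ (0, 0)) ∧
    Tendsto (fun s => (x (t₀ - σ * s), y (t₀ - σ * s))) atTop (𝓝 (0, 0)) ∧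
    S = {p | ∃ t, 0 ≤ -σ * (t - t₀) ∧ p = (x t, y t)}

/-- the set of points of the plane at Euclidean distance at most `ε` from `S`. -/
def nbhd (S : Set (ℝ × ℝ)) (ε : ℝ) : Set (ℝ × ℝ) :=
  {p | ∀ δ > 0, ∃ q ∈ S, Real.sqrt ((p.1 - q.1) ^ 2 + (p.2 - q.2) ^ 2) ≤ ε + δ}

/-- the Minkowski (box) dimension of `S` exists and equals `d`. -/
def HasMinkDim (S : Set (ℝ × ℝ)) (d : ℝ) : Prop :=
  Tendsto (fun ε : ℝ => 2 - Real.log (volume (nbhd S ε)).toReal / Real.log ε) (𝓝[>] 0) (𝓝 d)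

/-- the real `m`-th root, for odd `m`. -/
noncomputable def rt (m : ℕ) (u : ℝ) : ℝ :=
  if 0 ≤ u then u ^ ((m:ℝ)⁻¹) else -((-u) ^ ((m:ℝ)⁻¹))

lemma rt_nonneg_eq {m : ℕ} {u : ℝ} (hu : 0 ≤ u) : rt m u = u ^ ((m:ℝ)⁻¹) := by
  unfold rt; rw [if_pos hu]

lemma rt_neg {m : ℕ} (hm : 0 < m) (u : ℝ) : rt m (-u) = -rt m u := by
  have h0 : (0:ℝ) ^ ((m:ℝ)⁻¹) = 0 := Real.zero_rpow (by positivity)
  unfold rt
  rcases lt_trichotomy u 0 with h | h | h
  · rw [if_pos (by linarith), if_neg (by linarith)]; ring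
  · subst h; simp [h0]
  · rw [if_neg (by linarith), if_pos h.le, neg_neg]

lemma rt_pow {m : ℕ} (hm : Odd m) (x : ℝ) : rt m (x ^ m) = x := by
  have hm0 : 0 < m := hm.pos
  rcases le_or_gt 0 x with h | h
  · rw [rt_nonneg_eq (by positivity), Real.pow_rpow_inv_natCast h hm0.ne']
  · have h1 : x ^ m = -((-x) ^ m) := by rw [hm.neg_pow]; ring
    rw [h1, rt_neg hm0, rt_nonneg_eq (by have : 0 < -x := by linarith
                                         positivity),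
      Real.pow_rpow_inv_natCast (by linarith) hm0.ne']
    ring

lemma rt_mono {m : ℕ} (hm : 0 < m) : Monotone (rt m) := by
  intro a b hab
  have hmi : 0 < (m:ℝ)⁻¹ := by positivity
  rcases le_or_gt 0 a with ha | ha
  · rw [rt_nonneg_eq ha, rt_nonneg_eq (ha.trans hab)]
    exact Real.rpow_le_rpow ha hab hmi.le
  · have hra : rt m a = -((-a) ^ ((m:ℝ)⁻¹)) := by unfold rt; rw [if_neg (by linarith)]
    rcases le_or_gt 0 b with hb | hb
    · rw [hra, rt_nonneg_eq hb]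
      have h1 : 0 ≤ (-a) ^ ((m:ℝ)⁻¹) := Real.rpow_nonneg (by linarith) _
      have h2 : 0 ≤ b ^ ((m:ℝ)⁻¹) := Real.rpow_nonneg hb _
      linarith
    · have hrb : rt m b = -((-b) ^ ((m:ℝ)⁻¹)) := by unfold rt; rw [if_neg (by linarith)]
      rw [hra, hrb]
      have := Real.rpow_le_rpow (by linarith : 0 ≤ -b) (by linarith : -b ≤ -a) hmi.le
      linarith

lemma rt_mul {m : ℕ} {c : ℝ} (hc : 0 < c) (u : ℝ) :
    rt m (c * u) = c ^ ((m:ℝ)⁻¹) * rt m u := by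
  rcases le_or_gt 0 u with h | h
  · rw [rt_nonneg_eq h, rt_nonneg_eq (by positivity), Real.mul_rpow hc.le h]
  · have h1 : ¬ (0 ≤ c * u) := by
      have := mul_neg_of_pos_of_neg hc h
      linarith
    have h2 : ¬ (0 ≤ u) := by linarith
    unfold rt
    rw [if_neg h1, if_neg h2, ← mul_neg, Real.mul_rpow hc.le (by linarith)]
    ring

lemma rt_one {m : ℕ} : rt m 1 = 1 := by
  rw [rt_nonneg_eq zero_le_one, Real.one_rpow]

lemma abs_rt_le {m : ℕ} (hm : 0 < m) {u : ℝ} (hu : |u| ≤ 1) : |rt m u| ≤ 1 := by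
  rw [abs_le] at hu ⊢
  constructor
  · have := rt_mono hm hu.1
    rwa [rt_neg hm, rt_one] at this
  · have := rt_mono hm hu.2
    rwa [rt_one] at this

/-- the radius as a function of `z = ρ^(-k)`. -/
noncomputable def Rr (k : ℕ) (z : ℝ) : ℝ := z ^ (-((2 * k : ℝ))⁻¹)

/-- the explicit spiral. -/
def crv (m n k : ℕ) (τ z₀ β : ℝ) : Set (ℝ × ℝ) :=
  {p | ∃ Θ : ℝ, 0 ≤ Θ ∧ p = (rt m (Rr k (z₀ + 2 * k * Θ) * Real.cos (β + Θ)),
    τ * rt n (Rr k (z₀ + 2 * k * Θ) * Real.sin (β + Θ)))}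

end Pool.Agent.X19.SP
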