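import Mathlib
import Pool.Agent.X19.SP.Defs

open Set Filter Topology MeasureTheory

namespace Pool.Agent.X19.SP

lemma Rr_eq_sqrt {k : ℕ} (hk : 0 < k) {r : ℝ} (hr : 0 < r) :
    Rr k ((r ^ k)⁻¹) = Real.sqrt r := by
  unfold Rr
  have hk' : (k:ℝ) ≠ 0 := by positivity
  rw [Real.sqrt_eq_rpow, ← Real.rpow_natCast r k, ← Real.rpow_neg hr.le, ← Real.rpow_mul hr.le]
  congr 1
  field_simp

section ode

variable {m n k : ℕ} {σ : ℝ} {X Y : ℝ → ℝ}

lemma hasDerivAt_pow_even {x : ℝ → ℝ} {x' s : ℝ} (h : HasDerivAt x x' s) (m : ℕ) :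
    HasDerivAt (fun s => x s ^ m) (m * x s ^ (m - 1) * x') s :=
  h.pow m

/-- the main computation -/
lemma ode_facts (hm : Odd m) (hn : Odd n) (hk : 0 < k) (hσ : σ * σ = 1)
    (hX : ∀ s, 0 ≤ s → HasDerivAt X (-σ * (-(n * Y s ^ (2 * n - 1)) +
        σ * n * X s ^ m * Y s ^ (n - 1) * rho m n (X s) (Y s) ^ k)) s)
    (hY : ∀ s, 0 ≤ s → HasDerivAt Y (-σ * (m * X s ^ (2 * m - 1) +
        σ * m * X s ^ (m - 1) * Y s ^ n * rho m n (X s) (Y s) ^ k)) s)
    (hpos : ∀ s, 0 ≤ s → 0 < rho m n (X s) (Y s)) :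
    ∃ G : ℝ → ℝ, ∃ β : ℝ, G 0 = 0 ∧ (∀ s, 0 ≤ s → ContinuousAt G s) ∧ (∀ s, 0 ≤ s → 0 ≤ G s) ∧
      (∀ s, 0 ≤ s → (rho m n (X s) (Y s) ^ k)⁻¹ =
        (rho m n (X 0) (Y 0) ^ k)⁻¹ + 2 * k * G s) ∧
      (∀ s, 0 ≤ s → X s ^ m = Real.sqrt (rho m n (X s) (Y s)) * Real.cos (β + G s)) ∧
      (∀ s, 0 ≤ s → Y s ^ n = -σ * (Real.sqrt (rho m n (X s) (Y s)) * Real.sin (β + G s))) := by
  set r : ℝ → ℝ := fun s => rho m n (X s) (Y s) with hr
  set U : ℝ → ℝ := fun s => X s ^ m with hU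
  set V : ℝ → ℝ := fun s => Y s ^ n with hV
  set g : ℝ → ℝ := fun s => m * n * X s ^ (m - 1) * Y s ^ (n - 1) with hg
  have hrUV : ∀ s, r s = U s ^ 2 + V s ^ 2 := by
    intro s
    simp only [hr, hU, hV, rho]
    rw [← pow_mul, ← pow_mul, mul_comm m 2, mul_comm n 2]
  have hm1 : m = (m - 1) + 1 := by have := hm.pos; omega
  have hn1 : n = (n - 1) + 1 := by have := hn.pos; omega
  have hg0 : ∀ s, 0 ≤ g s := by
    intro s
    have h1 : Even (m - 1) := by
      rcases hm with ⟨a, ha⟩; exact ⟨a, by omega⟩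
    have h2 : Even (n - 1) := by
      rcases hn with ⟨a, ha⟩; exact ⟨a, by omega⟩
    have := h1.pow_nonneg (X s)
    have := h2.pow_nonneg (Y s)
    simp only [hg]
    positivity
  have hUd : ∀ s, 0 ≤ s → HasDerivAt U (g s * (σ * V s - U s * r s ^ k)) s := by
    intro s hs
    have := hasDerivAt_pow_even (hX s hs) m
    refine this.congr_deriv ?_
    simp only [hg, hU, hV, hr]
    have e1 : Y s ^ (2 * n - 1) = Y s ^ (n - 1) * Y s ^ n := by
      rw [← pow_add]; congr 1; omega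
    rw [e1]
    linear_combination (-(m : ℝ) * X s ^ (m - 1) * n * X s ^ m * Y s ^ (n - 1) *
      rho m n (X s) (Y s) ^ k) * hσ
  have hVd : ∀ s, 0 ≤ s → HasDerivAt V (g s * (-σ * U s - V s * r s ^ k)) s := by
    intro s hs
    have := hasDerivAt_pow_even (hY s hs) n
    refine this.congr_deriv ?_
    simp only [hg, hU, hV, hr]
    have e1 : X s ^ (2 * m - 1) = X s ^ (m - 1) * X s ^ m := by
      rw [← pow_add]; congr 1; omega
    rw [e1]
    linear_combination (-(m : ℝ) * X s ^ (m - 1) * n * Y s ^ n * Y s ^ (n - 1) *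
      rho m n (X s) (Y s) ^ k) * hσ
  have hrd : ∀ s, 0 ≤ s → HasDerivAt r (-2 * g s * r s ^ (k + 1)) s := by
    intro s hs
    have h1 := ((hUd s hs).pow 2).add ((hVd s hs).pow 2)
    have h2 : r = (U ^ 2 + V ^ 2) := by
      funext s; simpa using hrUV s
    rw [h2]
    refine h1.congr_deriv ?_
    simp only [Pi.add_apply, Pi.pow_apply]
    rw [pow_succ (U s ^ 2 + V s ^ 2) k, hrUV s]
    push_cast
    ring
  set G : ℝ → ℝ := fun s => ((r s ^ k)⁻¹ - (r 0 ^ k)⁻¹) / (2 * k) with hG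
  have hk' : (k:ℝ) ≠ 0 := by positivity
  have hGd : ∀ s, 0 ≤ s → HasDerivAt G (g s) s := by
    intro s hs
    have hr0 : r s ≠ 0 := (hpos s hs).ne'
    have h1 := ((((hrd s hs).pow k).inv (pow_ne_zero k hr0)).sub_const ((r 0 ^ k)⁻¹)).div_const
      (2 * (k:ℝ))
    have h2 : G = fun s => ((r ^ k)⁻¹ s - (r 0 ^ k)⁻¹) / (2 * k) := by
      funext s; simp [hG]
    rw [h2]
    refine h1.congr_deriv ?_
    simp only [Pi.pow_apply]
    have hk1 : r s ^ (k + 1) * r s ^ (k - 1) = (r s ^ k) ^ 2 := by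
      rw [← pow_add, ← pow_mul]; congr 1; omega
    have hrk : r s ^ k ≠ 0 := pow_ne_zero _ hr0
    rw [div_div, div_eq_iff (by positivity)]
    linear_combination (2 * g s * k) * hk1
  have hsd : ∀ s, 0 ≤ s → HasDerivAt (fun s => Real.sqrt (r s))
      (-g s * r s ^ k * Real.sqrt (r s)) s := by
    intro s hs
    have h1 := (hrd s hs).sqrt (hpos s hs).ne'
    refine h1.congr_deriv ?_
    have hq : Real.sqrt (r s) ≠ 0 := (Real.sqrt_pos.2 (hpos s hs)).ne'
    have hqq : Real.sqrt (r s) ^ 2 = r s := Real.sq_sqrt (hpos s hs).le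
    rw [div_eq_iff (by positivity), pow_succ]
    linear_combination (2 * g s * r s ^ k) * hqq
  have hud : ∀ s, 0 ≤ s → HasDerivAt (fun s => U s / Real.sqrt (r s))
      (σ * g s * (V s / Real.sqrt (r s))) s := by
    intro s hs
    have hq : Real.sqrt (r s) ≠ 0 := (Real.sqrt_pos.2 (hpos s hs)).ne'
    refine ((hUd s hs).div (hsd s hs) hq).congr_deriv ?_
    field_simp
    ring
  have hvd : ∀ s, 0 ≤ s → HasDerivAt (fun s => V s / Real.sqrt (r s))
      (-σ * g s * (U s / Real.sqrt (r s))) s := by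
    intro s hs
    have hq : Real.sqrt (r s) ≠ 0 := (Real.sqrt_pos.2 (hpos s hs)).ne'
    refine ((hVd s hs).div (hsd s hs) hq).congr_deriv ?_
    field_simp
    ring
  set u : ℝ → ℝ := fun s => U s / Real.sqrt (r s) with hu
  set v : ℝ → ℝ := fun s => V s / Real.sqrt (r s) with hv
  have hconst : ∀ f : ℝ → ℝ, (∀ s, 0 ≤ s → HasDerivAt f 0 s) → ∀ s, 0 ≤ s → f s = f 0 := by
    intro f hf s hs
    refine constant_of_has_deriv_right_zero (a := 0) (b := s) ?_ ?_ s ⟨hs, le_rfl⟩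
    · intro t ht; exact (hf t ht.1).continuousAt.continuousWithinAt
    · intro t ht; exact (hf t ht.1).hasDerivWithinAt
  have hA := hconst (fun s => u s * Real.cos (G s) - σ * (v s * Real.sin (G s))) (by
    intro s hs
    have h1 := ((hud s hs).mul (hGd s hs).cos).sub (((hvd s hs).mul (hGd s hs).sin).const_mul σ)
    refine h1.congr_deriv ?_
    simp only [hu, hv]
    linear_combination (g s * (U s / Real.sqrt (r s)) * Real.sin (G s)) * hσ)
  have hB := hconst (fun s => v s * Real.cos (G s) + σ * (u s * Real.sin (G s))) (by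
    intro s hs
    have h1 := ((hvd s hs).mul (hGd s hs).cos).add (((hud s hs).mul (hGd s hs).sin).const_mul σ)
    refine h1.congr_deriv ?_
    simp only [hu, hv]
    linear_combination (g s * (V s / Real.sqrt (r s)) * Real.sin (G s)) * hσ)
  have hG0 : G 0 = 0 := by simp [hG]
  have huv1 : u 0 ^ 2 + v 0 ^ 2 = 1 := by
    simp only [hu, hv]
    rw [div_pow, div_pow, ← add_div, Real.sq_sqrt (hpos 0 le_rfl).le, ← hrUV 0, div_self (hpos 0 le_rfl).ne']
  obtain ⟨α, hα1, hα2⟩ : ∃ α : ℝ, u 0 = Real.cos α ∧ v 0 = Real.sin α := by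
    have h1 : ‖(⟨u 0, v 0⟩ : ℂ)‖ = 1 := by
      rw [Complex.norm_def, Complex.normSq_mk, ← sq, ← sq, huv1, Real.sqrt_one]
    refine ⟨Complex.arg ⟨u 0, v 0⟩, ?_, ?_⟩
    · rw [Complex.cos_arg (by intro h; rw [h] at h1; simp at h1), h1]; simp
    · rw [Complex.sin_arg, h1]; simp
  simp only [hG0, Real.cos_zero, Real.sin_zero, mul_one, mul_zero, sub_zero, add_zero] at hA hB
  have hcs : ∀ s, 0 ≤ s → u s = Real.cos (-σ * α + G s) ∧
      v s = -σ * Real.sin (-σ * α + G s) := by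
    intro s hs
    have a1 := hA s hs
    have b1 := hB s hs
    have c1 := Real.sin_sq_add_cos_sq (G s)
    have hcσ : Real.cos (-σ * α) = Real.cos α ∧ Real.sin (-σ * α) = -σ * Real.sin α := by
      rcases mul_self_eq_one_iff.1 hσ with h | h <;> subst h <;> simp
    rw [Real.cos_add, Real.sin_add, hcσ.1, hcσ.2, ← hα1, ← hα2]
    constructor
    · linear_combination (Real.cos (G s)) * a1 + (σ * Real.sin (G s)) * b1 - u s * c1 -
        (u s * Real.sin (G s) ^ 2) * hσ
    · linear_combination (Real.cos (G s)) * b1 - (σ * Real.sin (G s)) * a1 - v s * c1 -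
        (v s * Real.sin (G s) ^ 2) * hσ - (v 0 * Real.cos (G s)) * hσ
  have hmono : ∀ s, 0 ≤ s → 0 ≤ G s := by
    intro s hs
    have hm := monotoneOn_of_deriv_nonneg (D := Ici (0:ℝ)) (f := G) (convex_Ici 0)
      (fun t ht => (hGd t ht).continuousAt.continuousWithinAt)
      (fun t ht => by
        rw [interior_Ici] at ht
        exact (hGd t (le_of_lt ht)).differentiableAt.differentiableWithinAt)
      (fun t ht => by
        rw [interior_Ici] at ht
        rw [(hGd t (le_of_lt ht)).deriv]; exact hg0 t)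
    have := hm (mem_Ici.2 le_rfl) (mem_Ici.2 hs) hs
    rwa [hG0] at this
  refine ⟨G, -σ * α, hG0, fun s hs => (hGd s hs).continuousAt, hmono, ?_, ?_, ?_⟩
  · intro s hs
    simp only [hG, hr]
    field_simp
    ring
  · intro s hs
    rw [← (hcs s hs).1]
    have hq : Real.sqrt (r s) ≠ 0 := (Real.sqrt_pos.2 (hpos s hs)).ne'
    simp only [hu, hU]
    rw [mul_div_cancel₀ _ hq]
  · intro s hs
    have hq : Real.sqrt (r s) ≠ 0 := (Real.sqrt_pos.2 (hpos s hs)).ne'
    have h2 := (hcs s hs).2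
    have h3 : -σ * (Real.sqrt (r s) * Real.sin (-σ * α + G s)) = Real.sqrt (r s) * v s := by
      rw [h2]; ring
    show Y s ^ n = -σ * (Real.sqrt (r s) * Real.sin (-σ * α + G s))
    rw [h3]
    simp only [hv, hV]
    rw [mul_div_cancel₀ _ hq]

end ode

/-- every spiral trajectory is an explicit curve -/
theorem spiral_eq {m n k : ℕ} {σ : ℝ} {S : Set (ℝ × ℝ)} (hm : Odd m) (hn : Odd n) (hk : 0 < k)
    (hσ : σ = 1 ∨ σ = -1) (h : IsSpiral m n k σ S) :
    ∃ z₀ β : ℝ, 0 < z₀ ∧ S = crv m n k (-σ) z₀ β := by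
  obtain ⟨x, y, t₀, hode, hne, hlim, hS⟩ := h
  have hσ2 : σ * σ = 1 := by rcases hσ with h | h <;> subst h <;> norm_num
  have hse : ∀ s : ℝ, -σ * (t₀ - σ * s - t₀) = s := by
    intro s
    linear_combination s * hσ2
  have haff : ∀ s : ℝ, HasDerivAt (fun s => t₀ - σ * s) (-σ) s := by
    intro s
    have := ((hasDerivAt_id s).const_mul σ).const_sub t₀
    simpa using this
  set X : ℝ → ℝ := fun s => x (t₀ - σ * s) with hX
  set Y : ℝ → ℝ := fun s => y (t₀ - σ * s) with hY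
  have hpos : ∀ s, 0 ≤ s → 0 < rho m n (X s) (Y s) := by
    intro s hs
    have h1 := hne (t₀ - σ * s) (by rw [hse]; exact hs)
    unfold rho
    have e1 : 0 ≤ X s ^ (2 * m) := by rw [mul_comm, pow_mul]; positivity
    have e2 : 0 ≤ Y s ^ (2 * n) := by rw [mul_comm, pow_mul]; positivity
    rcases eq_or_lt_of_le e1 with e | e
    · rcases eq_or_lt_of_le e2 with e' | e'
      · exfalso; apply h1
        have a1 : X s = 0 := by
          have := e.symm; exact pow_eq_zero_iff (by have := hm.pos; omega) |>.1 this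
        have a2 : Y s = 0 := by
          have := e'.symm; exact pow_eq_zero_iff (by have := hn.pos; omega) |>.1 this
        simp only [hX, hY] at a1 a2
        rw [a1, a2]
      · linarith
    · linarith
  obtain ⟨G, β, hG0, hGc, hGn, hw, hU, hV⟩ := ode_facts (σ := σ) (X := X) (Y := Y) hm hn hk hσ2
    (by
      intro s hs
      have h1 := (hode (t₀ - σ * s) (by rw [hse]; exact hs)).1
      have h2 := HasDerivAt.comp s h1 (haff s)
      refine h2.congr_deriv ?_
      simp only [hX, hY]; ring)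
    (by
      intro s hs
      have h1 := (hode (t₀ - σ * s) (by rw [hse]; exact hs)).2
      have h2 := HasDerivAt.comp s h1 (haff s)
      refine h2.congr_deriv ?_
      simp only [hX, hY]; ring) hpos
  have hz0 : 0 < (rho m n (X 0) (Y 0) ^ k)⁻¹ := by
    have := hpos 0 le_rfl
    positivity
  have hpt : ∀ s, 0 ≤ s → (X s, Y s) = (rt m (Rr k ((rho m n (X 0) (Y 0) ^ k)⁻¹ + 2 * k * G s) *
      Real.cos (β + G s)), -σ * rt n (Rr k ((rho m n (X 0) (Y 0) ^ k)⁻¹ + 2 * k * G s) *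
      Real.sin (β + G s))) := by
    intro s hs
    rw [← hw s hs, Rr_eq_sqrt hk (hpos s hs), ← hU s hs, rt_pow hm]
    congr 1
    have h1 : Real.sqrt (rho m n (X s) (Y s)) * Real.sin (β + G s) = -σ * Y s ^ n := by
      rw [hV s hs]
      linear_combination (-(Real.sqrt (rho m n (X s) (Y s)) * Real.sin (β + G s))) * hσ2
    rw [h1]
    rcases hσ with h | h
    · subst h
      rw [neg_one_mul, neg_one_mul, rt_neg hn.pos, rt_pow hn, neg_neg]
    · subst h
      rw [neg_neg, one_mul, one_mul, rt_pow hn]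
  refine ⟨(rho m n (X 0) (Y 0) ^ k)⁻¹, β, hz0, ?_⟩
  rw [hS]
  ext p
  constructor
  · rintro ⟨t, ht, rfl⟩
    refine ⟨G (-σ * (t - t₀)), hGn _ ht, ?_⟩
    rw [← hpt _ ht]
    have : t₀ - σ * (-σ * (t - t₀)) = t := by linear_combination (t - t₀) * hσ2
    simp only [hX, hY]
    rw [this]
  · rintro ⟨Θ, hΘ, rfl⟩
    -- G is unbounded
    have hlim0 : Tendsto (fun s => rho m n (X s) (Y s)) atTop (𝓝 0) := by
      have hc : Continuous (fun p : ℝ × ℝ => rho m n p.1 p.2) := by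
        unfold rho; fun_prop
      have := (hc.tendsto (0, 0)).comp hlim
      have e0 : rho m n 0 0 = 0 := by
        unfold rho
        rw [zero_pow (by have := hm.pos; omega), zero_pow (by have := hn.pos; omega)]; ring
      simp only [e0] at this
      exact this
    have hlim1 : Tendsto (fun s => rho m n (X s) (Y s) ^ k) atTop (𝓝[>] 0) := by
      rw [tendsto_nhdsWithin_iff]
      constructor
      · have := hlim0.pow k
        rwa [zero_pow hk.ne'] at this
      · filter_upwards [eventually_ge_atTop 0] with s hs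
        exact pow_pos (hpos s hs) k
    have hlim2 : Tendsto (fun s => (rho m n (X s) (Y s) ^ k)⁻¹) atTop atTop :=
      tendsto_inv_nhdsGT_zero.comp hlim1
    obtain ⟨s₁, hs₁, hb⟩ : ∃ s₁, 0 ≤ s₁ ∧ Θ ≤ G s₁ := by
      have h1 := (hlim2.eventually_ge_atTop ((rho m n (X 0) (Y 0) ^ k)⁻¹ + 2 * k * Θ)).and
        (eventually_ge_atTop (0:ℝ))
      obtain ⟨s₁, h2, h3⟩ := h1.exists
      refine ⟨s₁, h3, ?_⟩
      rw [hw s₁ h3] at h2
      have hkp : (0:ℝ) < 2 * k := by positivity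
      have h4 : 2 * (k:ℝ) * Θ ≤ 2 * k * G s₁ := by linarith
      exact le_of_mul_le_mul_left h4 hkp
    have hiv := intermediate_value_Icc hs₁
      (fun s hs => (hGc s hs.1).continuousWithinAt : ContinuousOn G (Icc 0 s₁))
    obtain ⟨s, hs, hGs⟩ := hiv (show Θ ∈ Icc (G 0) (G s₁) from ⟨by rw [hG0]; exact hΘ, hb⟩)
    refine ⟨t₀ - σ * s, ?_, ?_⟩
    · rw [hse]; exact hs.1
    · rw [← hGs, ← hpt s hs.1]

end Pool.Agent.X19.SP
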