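import Mathlib
import Pool.Agent.X19.SP.B

open Set Filter Topology MeasureTheory

namespace Pool.Agent.X19.SP

lemma Rr_pos {k : ℕ} {z : ℝ} (hz : 0 < z) : 0 < Rr k z := Real.rpow_pos_of_pos hz _

lemma Rr_sq_pow {k : ℕ} (hk : 0 < k) {z : ℝ} (hz : 0 < z) : ((Rr k z ^ 2) ^ k)⁻¹ = z := by
  unfold Rr
  have hk' : (k:ℝ) ≠ 0 := by positivity
  rw [← pow_mul, ← Real.rpow_natCast, ← Real.rpow_mul hz.le, ← Real.rpow_neg hz.le]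
  have : -(-(2 * (k:ℝ))⁻¹ * ((2 * k : ℕ) : ℝ)) = 1 := by
    push_cast; field_simp
  rw [this, Real.rpow_one]

lemma Rr_anti {k : ℕ} {z w : ℝ} (hz : 0 < z) (hzw : z ≤ w) : Rr k w ≤ Rr k z := by
  unfold Rr
  exact Real.rpow_le_rpow_of_nonpos hz hzw (by
    have : (0:ℝ) ≤ (2 * (k:ℝ))⁻¹ := by positivity
    linarith)

lemma diff_rho {k : ℕ} (hk : 0 < k) {p q D : ℝ} (hp : 0 < p) (hpq : p ≤ q)
    (hD : (p ^ k)⁻¹ - (q ^ k)⁻¹ ≤ D) : q - p ≤ D * p ^ k * q := by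
  have hq : 0 < q := hp.trans_le hpq
  obtain ⟨j, rfl⟩ : ∃ j, k = j + 1 := ⟨k - 1, by omega⟩
  have h1 : (q - p) * q ^ j ≤ q ^ (j+1) - p ^ (j+1) := by
    have h0 : p ^ j ≤ q ^ j := pow_le_pow_left₀ hp.le hpq j
    have := mul_le_mul_of_nonneg_left h0 hp.le
    rw [pow_succ, pow_succ]; nlinarith
  have h2 : q ^ (j+1) - p ^ (j+1) ≤ D * (p ^ (j+1) * q ^ (j+1)) := by
    have h3 : (p ^ (j+1))⁻¹ - (q ^ (j+1))⁻¹ =
        (q ^ (j+1) - p ^ (j+1)) / (p ^ (j+1) * q ^ (j+1)) := by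
      field_simp
    rw [h3, div_le_iff₀ (by positivity)] at hD
    exact hD
  have hqj : 0 < q ^ j := by positivity
  have h4 : (q - p) * q ^ j ≤ (D * p ^ (j+1) * q) * q ^ j := by
    calc _ ≤ _ := h1
      _ ≤ _ := h2
      _ = _ := by ring
  exact le_of_mul_le_mul_right h4 hqj

lemma diff_root {n : ℕ} (hn : 0 < n) {y b : ℝ} (hy : 0 ≤ y) (hb : 0 ≤ b) :
    |y - b| * b ^ (2 * n - 1) ≤ |(y ^ n) ^ 2 - (b ^ n) ^ 2| := by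
  have e1 : ∀ x : ℝ, (x ^ n) ^ 2 = x * x ^ (2 * n - 1) := by
    intro x
    rw [← pow_mul, ← pow_succ']; congr 1; omega
  rw [e1, e1]
  rcases le_total b y with h | h
  · have h1 : b ^ (2 * n - 1) ≤ y ^ (2 * n - 1) := pow_le_pow_left₀ hb h _
    have h2 := mul_le_mul_of_nonneg_left h1 hy
    rw [abs_of_nonneg (by linarith)]
    refine le_trans ?_ (le_abs_self _)
    linarith
  · have h1 : y ^ (2 * n - 1) ≤ b ^ (2 * n - 1) := pow_le_pow_left₀ hy h _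
    have h2 := mul_le_mul_of_nonneg_left h1 hy
    rw [abs_of_nonpos (by linarith)]
    refine le_trans ?_ (neg_le_abs _)
    linarith

lemma cont_Rr {k : ℕ} {z₀ a b : ℝ} (hz₀ : 0 < z₀) (ha : 0 ≤ a) :
    ContinuousOn (fun Θ : ℝ => Rr k (z₀ + 2 * k * Θ)) (Icc a b) := by
  unfold Rr
  refine ContinuousOn.rpow_const (by fun_prop) ?_
  intro Θ hΘ
  left
  have : 0 ≤ Θ := ha.trans hΘ.1
  positivity

/-- every point of a rectangle is close to the spiral. -/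
lemma lower_pt {m n k : ℕ} (hm : Odd m) (hn : Odd n) (hk : 0 < k) {z₀ : ℝ} (β : ℝ)
    (hz₀ : 0 < z₀) :
    ∃ r₀ : ℝ, 0 < r₀ ∧ ∀ R₁ : ℝ, 0 < R₁ → R₁ < r₀ → ∀ a b : ℝ, 0 < a → 0 < b →
      R₁ / 4 ≤ a ^ m → a ^ m ≤ R₁ / 2 → R₁ / 4 ≤ b ^ n → b ^ n ≤ R₁ / 2 →
      ∃ Θ : ℝ, 0 ≤ Θ ∧ rt m (Rr k (z₀ + 2 * k * Θ) * Real.cos (β + Θ)) = a ∧
        |rt n (Rr k (z₀ + 2 * k * Θ) * Real.sin (β + Θ)) - b| ≤
          64 * Real.pi * k * (R₁ ^ (2 * k) * R₁ ^ ((n:ℝ)⁻¹)) := by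
  have hπ := Real.pi_pos
  have hk1 : (1:ℝ) ≤ k := by exact_mod_cast hk
  refine ⟨(1 + z₀ + 8 * Real.pi * k)⁻¹, by positivity, ?_⟩
  intro R₁ hR hR' a b ha hb ha1 ha2 hb1 hb2
  set D : ℝ := 4 * Real.pi * k with hD
  have hDpos : 0 < D := by positivity
  have hR1 : R₁ * (1 + z₀ + 2 * D) < 1 := by
    have := (lt_inv_comm₀ hR (by positivity)).1 hR'
    have h2 : 1 + z₀ + 2 * D < R₁⁻¹ := by rw [hD]; linarith
    have := mul_lt_mul_of_pos_left h2 hR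
    rwa [mul_inv_cancel₀ hR.ne'] at this
  have hRle : R₁ ≤ 1 := by nlinarith
  set U₀ := a ^ m with hU₀
  set V₀ := b ^ n with hV₀
  set q := U₀ ^ 2 + V₀ ^ 2 with hq
  have hqpos : 0 < q := by positivity
  have hqle : q ≤ R₁ ^ 2 / 2 := by nlinarith
  have hqR : q ≤ R₁ / 2 := by nlinarith
  have hq1 : q ≤ 1 := by linarith
  have hqk : q ^ k ≤ R₁ / 2 := by
    calc q ^ k ≤ q ^ 1 := pow_le_pow_of_le_one hqpos.le hq1 hk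
      _ ≤ R₁ / 2 := by rw [pow_one]; exact hqR
  have hqkpos : 0 < q ^ k := by positivity
  have hzQ : z₀ + D < (q ^ k)⁻¹ := by
    rw [lt_inv_comm₀ (by positivity) hqkpos]
    have : R₁ / 2 < (z₀ + D)⁻¹ := by
      rw [lt_inv_comm₀ (by positivity) (by positivity), inv_div, lt_div_iff₀ hR]
      nlinarith
    linarith
  set ΘQ := ((q ^ k)⁻¹ - z₀) / (2 * k) with hΘQ
  have hkk : (0:ℝ) < 2 * k := by positivity
  have hΘQ' : z₀ + 2 * k * ΘQ = (q ^ k)⁻¹ := by rw [hΘQ]; field_simp; ring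
  have hΘQ2 : 2 * Real.pi < ΘQ := by
    rw [hΘQ, lt_div_iff₀ hkk]; rw [hD] at hzQ; linarith
  set j : ℤ := ⌊(β + ΘQ) / (2 * Real.pi)⌋ with hj
  have hj1 : (j:ℝ) * (2 * Real.pi) ≤ β + ΘQ := by
    have := Int.floor_le ((β + ΘQ) / (2 * Real.pi))
    rwa [le_div_iff₀ (by positivity)] at this
  have hj2 : β + ΘQ < ((j:ℝ) + 1) * (2 * Real.pi) := by
    have := Int.lt_floor_add_one ((β + ΘQ) / (2 * Real.pi))
    rwa [div_lt_iff₀ (by positivity)] at this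
  set Θa := (j:ℝ) * (2 * Real.pi) - β with hΘa
  have hΘa0 : 0 ≤ Θa := by linarith
  have hΘaQ : Θa ≤ ΘQ := by linarith
  -- the intermediate value theorem
  have hcont : ContinuousOn (fun Θ : ℝ => Rr k (z₀ + 2 * k * Θ) * Real.cos (β + Θ))
      (Icc Θa (Θa + Real.pi)) := (cont_Rr hz₀ hΘa0).mul (by fun_prop)
  have hiv := intermediate_value_Icc' (by linarith : Θa ≤ Θa + Real.pi) hcont
  have hfa : U₀ ≤ Rr k (z₀ + 2 * k * Θa) * Real.cos (β + Θa) := by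
    have e1 : β + Θa = (j:ℝ) * (2 * Real.pi) := by rw [hΘa]; ring
    rw [e1, Real.cos_int_mul_two_pi, mul_one]
    have e2 : Rr k (z₀ + 2 * k * ΘQ) ≤ Rr k (z₀ + 2 * k * Θa) := by
      refine Rr_anti (by positivity) ?_
      have := mul_le_mul_of_nonneg_left hΘaQ hkk.le
      linarith
    rw [hΘQ', Rr_eq_sqrt hk hqpos] at e2
    refine le_trans ?_ e2
    refine Real.le_sqrt_of_sq_le ?_
    rw [hq]; nlinarith [sq_nonneg V₀]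
  have hfb : Rr k (z₀ + 2 * k * (Θa + Real.pi)) * Real.cos (β + (Θa + Real.pi)) ≤ U₀ := by
    have e1 : β + (Θa + Real.pi) = (j:ℝ) * (2 * Real.pi) + Real.pi := by rw [hΘa]; ring
    rw [e1, Real.cos_add_pi, Real.cos_int_mul_two_pi]
    have : 0 < Rr k (z₀ + 2 * k * (Θa + Real.pi)) := Rr_pos (by positivity)
    have h0 : 0 < U₀ := by positivity
    linarith
  obtain ⟨Θ, hΘ, hfΘ⟩ := hiv ⟨hfb, hfa⟩
  simp only at hfΘ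
  have hΘ0 : 0 ≤ Θ := hΘa0.trans hΘ.1
  refine ⟨Θ, hΘ0, ?_, ?_⟩
  · rw [hfΘ, hU₀, rt_pow hm]
  set z := z₀ + 2 * k * Θ with hz
  have hzpos : 0 < z := by positivity
  set R := Rr k z with hRdef
  have hRpos : 0 < R := Rr_pos hzpos
  have hsin : 0 ≤ Real.sin (β + Θ) := by
    have e1 : Real.sin (β + Θ) = Real.sin (Θ - Θa) := by
      have : β + Θ = (Θ - Θa) + (j:ℝ) * (2 * Real.pi) := by rw [hΘa]; ring
      rw [this, Real.sin_add_int_mul_two_pi]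
    rw [e1]
    exact Real.sin_nonneg_of_nonneg_of_le_pi (by linarith [hΘ.1]) (by linarith [hΘ.2])
  set V := R * Real.sin (β + Θ) with hV
  have hV0 : 0 ≤ V := mul_nonneg hRpos.le hsin
  have hR2 : 0 < R ^ 2 := by positivity
  have hzk : ((R ^ 2) ^ k)⁻¹ = z := Rr_sq_pow hk hzpos
  have hzd1 : z - (q ^ k)⁻¹ ≤ D := by
    rw [← hΘQ', hz, hD]
    have : Θ - ΘQ ≤ 2 * Real.pi := by linarith [hΘ.2]
    have := mul_le_mul_of_nonneg_left this hkk.le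
    linarith
  have hzd2 : (q ^ k)⁻¹ - z ≤ D := by
    rw [← hΘQ', hz, hD]
    have : ΘQ - Θ ≤ 2 * Real.pi := by linarith [hΘ.1]
    have := mul_le_mul_of_nonneg_left this hkk.le
    linarith
  have hUV : V ^ 2 - V₀ ^ 2 = R ^ 2 - q := by
    have h1 := Real.sin_sq_add_cos_sq (β + Θ)
    rw [hq, ← hfΘ, hV]
    linear_combination (R ^ 2) * h1
  have hqR2 : q ≤ R₁ ^ 2 := by nlinarith
  have hqkR : q ^ k ≤ (R₁ ^ 2) ^ k := pow_le_pow_left₀ hqpos.le hqR2 k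
  have hmain : |R ^ 2 - q| ≤ D * ((R₁ ^ 2) ^ k * R₁ ^ 2) := by
    rcases le_total (R ^ 2) q with h | h
    · have h1 := diff_rho hk hR2 h (D := D) (by rw [hzk]; exact hzd1)
      rw [abs_of_nonpos (by linarith)]
      have h2 : (R ^ 2) ^ k ≤ (R₁ ^ 2) ^ k := pow_le_pow_left₀ hR2.le (h.trans hqR2) k
      have h3 : (R ^ 2) ^ k * q ≤ (R₁ ^ 2) ^ k * R₁ ^ 2 := by gcongr
      have h4 := mul_le_mul_of_nonneg_left h3 hDpos.le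
      linarith
    · have h1 := diff_rho hk hqpos h (D := D) (by rw [hzk]; exact hzd2)
      rw [abs_of_nonneg (by linarith)]
      have hDq : D * q ^ k ≤ 1 / 2 := by
        have := mul_le_mul_of_nonneg_left hqk hDpos.le
        nlinarith
      have h5 : D * q ^ k * R ^ 2 ≤ 1 / 2 * R ^ 2 := mul_le_mul_of_nonneg_right hDq hR2.le
      have h6 : R ^ 2 ≤ R₁ ^ 2 := by linarith
      have h3 : q ^ k * R ^ 2 ≤ (R₁ ^ 2) ^ k * R₁ ^ 2 := by gcongr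
      have h4 := mul_le_mul_of_nonneg_left h3 hDpos.le
      linarith
  -- the y coordinate
  have hn0 : 0 < n := hn.pos
  have hyeq : rt n V = V ^ ((n:ℝ)⁻¹) := rt_nonneg_eq hV0
  rw [hyeq]
  set y := V ^ ((n:ℝ)⁻¹) with hy
  have hy0 : 0 ≤ y := Real.rpow_nonneg hV0 _
  have hyn : y ^ n = V := Real.rpow_inv_natCast_pow hV0 hn0.ne'
  have h7 := diff_root hn0 hy0 hb.le
  rw [hyn, ← hV₀, hUV] at h7
  have h8 := h7.trans hmain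
  have hbR : b ≤ R₁ ^ ((n:ℝ)⁻¹) := by
    have h1 : b = (b ^ n) ^ ((n:ℝ)⁻¹) := (Real.pow_rpow_inv_natCast hb.le hn0.ne').symm
    rw [h1]
    exact Real.rpow_le_rpow (by positivity) (by linarith) (by positivity)
  have hbb : b ^ (2 * n - 1) * b = V₀ ^ 2 := by
    rw [hV₀, ← pow_mul, ← pow_succ]; congr 1; omega
  have hV16 : R₁ ^ 2 / 16 ≤ V₀ ^ 2 := by nlinarith
  have hR12 : 0 < R₁ ^ 2 := by positivity
  -- |y-b| * (b^(2n-1)*b) ≤ D * R^2k * R^2 * b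
  have h9 : |y - b| * (R₁ ^ 2 / 16) ≤ D * ((R₁ ^ 2) ^ k * R₁ ^ 2) * R₁ ^ ((n:ℝ)⁻¹) := by
    calc |y - b| * (R₁ ^ 2 / 16) ≤ |y - b| * (b ^ (2 * n - 1) * b) := by
          rw [hbb]; exact mul_le_mul_of_nonneg_left hV16 (abs_nonneg _)
      _ = |y - b| * b ^ (2 * n - 1) * b := by ring
      _ ≤ D * ((R₁ ^ 2) ^ k * R₁ ^ 2) * b := mul_le_mul_of_nonneg_right h8 hb.le
      _ ≤ _ := mul_le_mul_of_nonneg_left hbR (by positivity)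
  have h10 : |y - b| * R₁ ^ 2 ≤ (64 * Real.pi * k * (R₁ ^ (2 * k) * R₁ ^ ((n:ℝ)⁻¹))) * R₁ ^ 2 := by
    have e : R₁ ^ (2 * k) = (R₁ ^ 2) ^ k := pow_mul _ _ _
    rw [e]
    have : (64 * Real.pi * k * ((R₁ ^ 2) ^ k * R₁ ^ ((n:ℝ)⁻¹))) * R₁ ^ 2 =
      16 * (D * ((R₁ ^ 2) ^ k * R₁ ^ 2) * R₁ ^ ((n:ℝ)⁻¹)) := by rw [hD]; ring
    rw [this]
    linarith
  exact le_of_mul_le_mul_right h10 hR12

lemma mem_nbhd_of_snd {S : Set (ℝ × ℝ)} {ε : ℝ} {p q : ℝ × ℝ} (hq : q ∈ S) (h1 : q.1 = p.1)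
    (h2 : |q.2 - p.2| ≤ ε) : p ∈ nbhd S ε := by
  intro δ hδ
  refine ⟨q, hq, ?_⟩
  rw [h1, sub_self, zero_pow (by norm_num), zero_add, Real.sqrt_sq_eq_abs, abs_sub_comm]
  linarith

/-- lower bound for the area -/
lemma lower_vol {m n k : ℕ} (hm : Odd m) (hn : Odd n) (hk : 0 < k) {z₀ τ : ℝ} (β : ℝ)
    (hz₀ : 0 < z₀) (hτ : τ = 1 ∨ τ = -1) :
    ∃ r₀ : ℝ, 0 < r₀ ∧ ∃ c : ℝ, 0 < c ∧ ∀ R₁ : ℝ, 0 < R₁ → R₁ < r₀ →
      ENNReal.ofReal (c * (R₁ ^ ((m:ℝ)⁻¹) * R₁ ^ ((n:ℝ)⁻¹))) ≤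
        volume (nbhd (crv m n k τ z₀ β) (64 * Real.pi * k * (R₁ ^ (2 * k) * R₁ ^ ((n:ℝ)⁻¹)))) := by
  obtain ⟨r₀, hr₀, hpt⟩ := lower_pt hm hn hk β hz₀
  have hm0 := hm.pos
  have hn0 := hn.pos
  have hc : ∀ m : ℕ, 0 < m → (0:ℝ) < (1/2 : ℝ) ^ ((m:ℝ)⁻¹) - (1/4 : ℝ) ^ ((m:ℝ)⁻¹) := by
    intro m hm
    have : (1/4 : ℝ) ^ ((m:ℝ)⁻¹) < (1/2 : ℝ) ^ ((m:ℝ)⁻¹) :=
      Real.rpow_lt_rpow (by norm_num) (by norm_num) (by positivity)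
    linarith
  refine ⟨r₀, hr₀, ((1/2 : ℝ) ^ ((m:ℝ)⁻¹) - (1/4 : ℝ) ^ ((m:ℝ)⁻¹)) *
    ((1/2 : ℝ) ^ ((n:ℝ)⁻¹) - (1/4 : ℝ) ^ ((n:ℝ)⁻¹)), mul_pos (hc m hm0) (hc n hn0), ?_⟩
  intro R₁ hR hR'
  have hs : ∀ m : ℕ, ∀ c : ℝ, 0 < c → (R₁ * c) ^ ((m:ℝ)⁻¹) = R₁ ^ ((m:ℝ)⁻¹) * c ^ ((m:ℝ)⁻¹) :=
    fun m c hc => Real.mul_rpow hR.le hc.le
  set a₁ := (R₁ * (1/4)) ^ ((m:ℝ)⁻¹) with ha₁
  set a₂ := (R₁ * (1/2)) ^ ((m:ℝ)⁻¹) with ha₂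
  set b₁ := (R₁ * (1/4)) ^ ((n:ℝ)⁻¹) with hb₁
  set b₂ := (R₁ * (1/2)) ^ ((n:ℝ)⁻¹) with hb₂
  have ha₁p : 0 < a₁ := Real.rpow_pos_of_pos (by positivity) _
  have hb₁p : 0 < b₁ := Real.rpow_pos_of_pos (by positivity) _
  have hpw : ∀ m : ℕ, 0 < m → ∀ c x : ℝ, 0 < c → 0 < x → (R₁ * c) ^ ((m:ℝ)⁻¹) ≤ x → R₁ * c ≤ x ^ m := by
    intro m hm c x hc hx h
    have := pow_le_pow_left₀ (Real.rpow_nonneg (by positivity) _) h m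
    rwa [Real.rpow_inv_natCast_pow (by positivity) hm.ne'] at this
  have hpw' : ∀ m : ℕ, 0 < m → ∀ c x : ℝ, 0 < c → 0 < x → x ≤ (R₁ * c) ^ ((m:ℝ)⁻¹) → x ^ m ≤ R₁ * c := by
    intro m hm c x hc hx h
    have := pow_le_pow_left₀ hx.le h m
    rwa [Real.rpow_inv_natCast_pow (by positivity) hm.ne'] at this
  have key : ∀ a b : ℝ, a ∈ Icc a₁ a₂ → b ∈ Icc b₁ b₂ →
      ((a, τ * b) : ℝ × ℝ) ∈ nbhd (crv m n k τ z₀ β)
        (64 * Real.pi * k * (R₁ ^ (2 * k) * R₁ ^ ((n:ℝ)⁻¹))) := by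
    intro a b ha hb
    have ha0 : 0 < a := ha₁p.trans_le ha.1
    have hb0 : 0 < b := hb₁p.trans_le hb.1
    have h1 := hpw m hm0 _ a (by norm_num) ha0 ha.1
    have h2 := hpw' m hm0 _ a (by norm_num) ha0 ha.2
    have h3 := hpw n hn0 _ b (by norm_num) hb0 hb.1
    have h4 := hpw' n hn0 _ b (by norm_num) hb0 hb.2
    obtain ⟨Θ, hΘ0, hΘ1, hΘ2⟩ := hpt R₁ hR hR' a b ha0 hb0 (by linarith) (by linarith)
      (by linarith) (by linarith)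
    refine mem_nbhd_of_snd (q := (rt m (Rr k (z₀ + 2 * k * Θ) * Real.cos (β + Θ)),
      τ * rt n (Rr k (z₀ + 2 * k * Θ) * Real.sin (β + Θ)))) ⟨Θ, hΘ0, rfl⟩ hΘ1 ?_
    simp only
    rw [← mul_sub, abs_mul]
    have : |τ| = 1 := by rcases hτ with h | h <;> subst h <;> simp
    rw [this, one_mul]
    exact hΘ2
  have hvol : ∀ J : Set ℝ, volume J = ENNReal.ofReal (b₂ - b₁) →
      (∀ b' ∈ J, ∃ b ∈ Icc b₁ b₂, b' = τ * b) →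
      ENNReal.ofReal (((1/2 : ℝ) ^ ((m:ℝ)⁻¹) - (1/4 : ℝ) ^ ((m:ℝ)⁻¹)) *
        ((1/2 : ℝ) ^ ((n:ℝ)⁻¹) - (1/4 : ℝ) ^ ((n:ℝ)⁻¹)) *
        (R₁ ^ ((m:ℝ)⁻¹) * R₁ ^ ((n:ℝ)⁻¹))) ≤
        volume (nbhd (crv m n k τ z₀ β) (64 * Real.pi * k * (R₁ ^ (2 * k) * R₁ ^ ((n:ℝ)⁻¹)))) := by
    intro J hJ hJ2
    have hsub : Icc a₁ a₂ ×ˢ J ⊆ nbhd (crv m n k τ z₀ β)
        (64 * Real.pi * k * (R₁ ^ (2 * k) * R₁ ^ ((n:ℝ)⁻¹))) := by
      rintro ⟨a, b'⟩ ⟨h1, h2⟩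
      obtain ⟨b, hb, hb'⟩ := hJ2 b' h2
      subst hb'
      exact key a b h1 hb
    refine le_trans (le_of_eq ?_) (measure_mono hsub)
    rw [Measure.volume_eq_prod, Measure.prod_prod, Real.volume_Icc, hJ]
    have hA : 0 ≤ a₂ - a₁ := by
      rw [ha₁, ha₂, hs m _ (by norm_num), hs m _ (by norm_num)]
      have := hc m hm0
      have h2 : 0 < R₁ ^ ((m:ℝ)⁻¹) := Real.rpow_pos_of_pos hR _
      nlinarith
    rw [← ENNReal.ofReal_mul hA]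
    congr 1
    rw [ha₁, ha₂, hb₁, hb₂, hs m _ (by norm_num), hs m _ (by norm_num), hs n _ (by norm_num),
      hs n _ (by norm_num)]
    ring
  rcases hτ with h | h
  · refine hvol (Icc b₁ b₂) Real.volume_Icc ?_
    intro b' hb'
    exact ⟨b', hb', by rw [h, one_mul]⟩
  · refine hvol (Icc (-b₂) (-b₁)) ?_ ?_
    · rw [Real.volume_Icc]; congr 1; ring
    · intro b' hb'
      exact ⟨-b', ⟨by linarith [hb'.2], by linarith [hb'.1]⟩, by rw [h]; ring⟩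

end Pool.Agent.X19.SP
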