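import Mathlib
import Pool.Agent.X19.SP.C

open Set Filter Topology MeasureTheory

namespace Pool.Agent.X19.SP

/-- closed square -/
def box (q : ℝ × ℝ) (h : ℝ) : Set (ℝ × ℝ) := Icc (q.1 - h) (q.1 + h) ×ˢ Icc (q.2 - h) (q.2 + h)

lemma vol_box (q : ℝ × ℝ) {h : ℝ} (hh : 0 ≤ h) :
    volume (box q h) = ENNReal.ofReal (4 * h ^ 2) := by
  unfold box
  rw [Measure.volume_eq_prod, Measure.prod_prod, Real.volume_Icc, Real.volume_Icc,
    ← ENNReal.ofReal_mul (by linarith)]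
  congr 1; ring

/-- points at sup-distance at most `2ε` from `S` -/
def thick (S : Set (ℝ × ℝ)) (ε : ℝ) : Set (ℝ × ℝ) :=
  {p | ∃ q ∈ S, |p.1 - q.1| ≤ 2 * ε ∧ |p.2 - q.2| ≤ 2 * ε}

lemma nbhd_sub_thick {S : Set (ℝ × ℝ)} {ε : ℝ} (hε : 0 < ε) : nbhd S ε ⊆ thick S ε := by
  intro p hp
  obtain ⟨q, hq, h⟩ := hp ε hε
  refine ⟨q, hq, ?_, ?_⟩
  · refine le_trans (Real.abs_le_sqrt ?_) (h.trans (by linarith))
    nlinarith [sq_nonneg (p.2 - q.2)]
  · refine le_trans (Real.abs_le_sqrt ?_) (h.trans (by linarith))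
    nlinarith [sq_nonneg (p.1 - q.1)]

lemma thick_cover {γ : ℝ → ℝ × ℝ} {F : ℝ → ℝ} {a b L ε : ℝ} (hab : a ≤ b) (hε : 0 < ε)
    (h1 : ∀ s ∈ Icc a b, ∀ t ∈ Icc a b, s ≤ t →
      |(γ t).1 - (γ s).1| ≤ F t - F s ∧ |(γ t).2 - (γ s).2| ≤ F t - F s)
    (hL : F b - F a ≤ L) :
    volume (thick (γ '' Icc a b) ε) ≤ ENNReal.ofReal (36 * ε ^ 2 * (L / ε + 1)) := by
  classical
  have hmono : ∀ s ∈ Icc a b, ∀ t ∈ Icc a b, s ≤ t → F s ≤ F t := by
    intro s hs t ht hst
    have := (abs_nonneg _).trans (h1 s hs t ht hst).1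
    linarith
  have ha : a ∈ Icc a b := ⟨le_rfl, hab⟩
  have hb : b ∈ Icc a b := ⟨hab, le_rfl⟩
  have hL0 : 0 ≤ L := by
    have := hmono a ha b hb hab
    linarith
  set N := ⌊L / ε⌋₊ with hN
  set idx : ℝ → ℕ := fun t => ⌊(F t - F a) / ε⌋₊ with hidx
  have hNL : (N:ℝ) ≤ L / ε := Nat.floor_le (by positivity)
  set rep : ℕ → ℝ := fun i => if h : ∃ t, t ∈ Icc a b ∧ idx t = i then h.choose else a with hrep
  have hrep1 : ∀ t ∈ Icc a b, rep (idx t) ∈ Icc a b ∧ idx (rep (idx t)) = idx t := by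
    intro t ht
    have h : ∃ t', t' ∈ Icc a b ∧ idx t' = idx t := ⟨t, ht, rfl⟩
    have e : rep (idx t) = h.choose := by simp only [hrep]; rw [dif_pos h]
    rw [e]; exact h.choose_spec
  have hclose : ∀ s ∈ Icc a b, ∀ t ∈ Icc a b, idx s = idx t → |F t - F s| ≤ ε := by
    intro s hs t ht h
    have hs0 : 0 ≤ (F s - F a) / ε := by
      have := hmono a ha s hs hs.1
      exact div_nonneg (by linarith) hε.le
    have ht0 : 0 ≤ (F t - F a) / ε := by
      have := hmono a ha t ht ht.1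
      exact div_nonneg (by linarith) hε.le
    have i1 : (idx s : ℝ) ≤ (F s - F a) / ε := Nat.floor_le hs0
    have i2 : (F s - F a) / ε < (idx s : ℝ) + 1 := Nat.lt_floor_add_one _
    have i3 : (idx t : ℝ) ≤ (F t - F a) / ε := Nat.floor_le ht0
    have i4 : (F t - F a) / ε < (idx t : ℝ) + 1 := Nat.lt_floor_add_one _
    rw [h] at i1 i2
    rw [le_div_iff₀ hε] at i1 i3
    rw [div_lt_iff₀ hε] at i2 i4
    rw [abs_le]; constructor <;> linarith
  have hγ : ∀ s ∈ Icc a b, ∀ t ∈ Icc a b, idx s = idx t →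
      |(γ t).1 - (γ s).1| ≤ ε ∧ |(γ t).2 - (γ s).2| ≤ ε := by
    intro s hs t ht h
    have hc := hclose s hs t ht h
    rw [abs_le] at hc
    rcases le_total s t with h' | h'
    · have := h1 s hs t ht h'
      exact ⟨this.1.trans hc.2, this.2.trans hc.2⟩
    · have := h1 t ht s hs h'
      rw [abs_sub_comm, abs_sub_comm (γ s).2] at this
      exact ⟨this.1.trans (by linarith), this.2.trans (by linarith)⟩
  have hsub : thick (γ '' Icc a b) ε ⊆ ⋃ i ∈ Finset.range (N + 1), box (γ (rep i)) (3 * ε) := by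
    rintro p ⟨q, ⟨t, ht, rfl⟩, hp1, hp2⟩
    have hi : idx t < N + 1 := by
      have h2 : F t ≤ F b := hmono t ht b hb ht.2
      have : idx t ≤ N := Nat.floor_le_floor (by
        apply div_le_div_of_nonneg_right _ hε.le
        linarith)
      omega
    simp only [mem_iUnion, Finset.mem_range]
    refine ⟨idx t, hi, ?_⟩
    obtain ⟨r1, r2⟩ := hrep1 t ht
    have hg := hγ _ r1 t ht r2
    rw [abs_le] at hp1 hp2
    obtain ⟨g1, g2⟩ := hg
    rw [abs_le] at g1 g2
    exact ⟨⟨by linarith, by linarith⟩, ⟨by linarith, by linarith⟩⟩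
  calc volume (thick (γ '' Icc a b) ε)
      ≤ volume (⋃ i ∈ Finset.range (N + 1), box (γ (rep i)) (3 * ε)) := measure_mono hsub
    _ ≤ ∑ i ∈ Finset.range (N + 1), volume (box (γ (rep i)) (3 * ε)) :=
        measure_biUnion_finset_le _ _
    _ = ∑ i ∈ Finset.range (N + 1), ENNReal.ofReal (4 * (3 * ε) ^ 2) := by
        refine Finset.sum_congr rfl fun i _ => vol_box _ (by positivity)
    _ = ENNReal.ofReal (∑ i ∈ Finset.range (N + 1), 4 * (3 * ε) ^ 2) := by
        rw [ENNReal.ofReal_sum_of_nonneg]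
        intro i _; positivity
    _ ≤ ENNReal.ofReal (36 * ε ^ 2 * (L / ε + 1)) := by
        apply ENNReal.ofReal_le_ofReal
        rw [Finset.sum_const, Finset.card_range, nsmul_eq_mul]
        push_cast
        have : (N + 1) * (4 * (3 * ε) ^ 2) = 36 * ε ^ 2 * (N + 1) := by ring
        rw [this]
        gcongr

/-- the variation function of `α ↦ rt m (cos α)` -/
noncomputable def PP (m : ℕ) (α : ℝ) : ℝ :=
  2 * (⌊α / Real.pi⌋ : ℝ) + 1 - rt m (Real.cos (α - ⌊α / Real.pi⌋ * Real.pi))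

lemma PP_add_pi (m : ℕ) (α : ℝ) : PP m (α + Real.pi) = PP m α + 2 := by
  unfold PP
  have h : (α + Real.pi) / Real.pi = α / Real.pi + 1 := by
    field_simp
  rw [h, Int.floor_add_one]
  push_cast
  have : α + Real.pi - (⌊α / Real.pi⌋ + 1) * Real.pi = α - ⌊α / Real.pi⌋ * Real.pi := by ring
  rw [this]; ring

lemma PP_diff {m : ℕ} (hm : 0 < m) {α α' : ℝ} (h : α ≤ α') :
    |rt m (Real.cos α') - rt m (Real.cos α)| ≤ PP m α' - PP m α := by
  have hπ := Real.pi_pos
  unfold PP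
  set j := ⌊α / Real.pi⌋ with hj
  set j' := ⌊α' / Real.pi⌋ with hj'
  have hjj : j ≤ j' := Int.floor_le_floor (div_le_div_of_nonneg_right h hπ.le)
  set φ := α - j * Real.pi with hφ
  set φ' := α' - j' * Real.pi with hφ'
  have hφ0 : 0 ≤ φ := by
    have := Int.floor_le (α / Real.pi)
    rw [le_div_iff₀ hπ] at this
    rw [hφ]; linarith
  have hφ0' : 0 ≤ φ' := by
    have := Int.floor_le (α' / Real.pi)
    rw [le_div_iff₀ hπ] at this
    rw [hφ']; linarith
  have hφ1 : φ ≤ Real.pi := by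
    have := Int.lt_floor_add_one (α / Real.pi)
    rw [div_lt_iff₀ hπ] at this
    rw [hφ]; linarith
  have hφ1' : φ' ≤ Real.pi := by
    have := Int.lt_floor_add_one (α' / Real.pi)
    rw [div_lt_iff₀ hπ] at this
    rw [hφ']; linarith
  have hcos : ∀ (x : ℝ) (i : ℤ), rt m (Real.cos (x + i * Real.pi)) =
      (-1) ^ i * rt m (Real.cos x) := by
    intro x i
    rw [Real.cos_add_int_mul_pi]
    rcases Int.even_or_odd i with hi | hi
    · rw [hi.neg_one_zpow, one_mul, one_mul]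
    · rw [hi.neg_one_zpow, neg_one_mul, neg_one_mul, rt_neg hm]
  have e1 : α = φ + j * Real.pi := by rw [hφ]; ring
  have e2 : α' = φ' + j' * Real.pi := by rw [hφ']; ring
  have f1 : rt m (Real.cos α) = (-1) ^ j * rt m (Real.cos φ) := by rw [e1]; exact hcos _ _
  have f2 : rt m (Real.cos α') = (-1) ^ j' * rt m (Real.cos φ') := by rw [e2]; exact hcos _ _
  rw [f1, f2]
  set c := rt m (Real.cos φ) with hc
  set c' := rt m (Real.cos φ') with hc'
  have b1 : |c| ≤ 1 := abs_rt_le hm (Real.abs_cos_le_one _)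
  have b2 : |c'| ≤ 1 := abs_rt_le hm (Real.abs_cos_le_one _)
  rw [abs_le] at b1 b2
  have hs : ∀ i : ℤ, ((-1:ℝ) ^ i = 1 ∨ (-1:ℝ) ^ i = -1) := by
    intro i
    rcases Int.even_or_odd i with hi | hi
    · left; exact hi.neg_one_zpow
    · right; exact hi.neg_one_zpow
  rcases hjj.eq_or_lt with h0 | h0
  · rw [← h0]
    have hφφ : φ ≤ φ' := by rw [hφ, hφ', ← h0]; linarith
    have hcc : c' ≤ c := rt_mono hm (Real.cos_le_cos_of_nonneg_of_le_pi hφ0 hφ1' hφφ)
    rcases hs j with h | h <;> rw [h, abs_le] <;> constructor <;> linarith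
  · have h0' : j + 1 ≤ j' := h0
    rcases h0'.eq_or_lt with h2 | h2
    · have h3 : (-1:ℝ) ^ j' = -(-1) ^ j := by
        rw [← h2, zpow_add_one₀ (by norm_num)]; ring
      have h4 : (j':ℝ) = j + 1 := by rw [← h2]; push_cast; ring
      rw [h3, h4]
      rcases hs j with h | h <;> rw [h, abs_le] <;> constructor <;> linarith
    · have h4 : (j:ℝ) + 2 ≤ j' := by
        have h5 : j + 2 ≤ j' := by omega
        exact_mod_cast h5
      rcases hs j with h | h <;> rcases hs j' with h' | h' <;> rw [h, h', abs_le] <;>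
        constructor <;> linarith

lemma PP_mono {m : ℕ} (hm : 0 < m) {α α' : ℝ} (h : α ≤ α') : PP m α ≤ PP m α' := by
  have := (abs_nonneg _).trans (PP_diff hm h)
  linarith

lemma prod_diff {A A' A₀ p p' D : ℝ} (hA : 0 ≤ A) (h1 : A' ≤ A) (h0 : A ≤ A₀)
    (hp : |p'| ≤ 1) (hD : |p' - p| ≤ D) : |A' * p' - A * p| ≤ A₀ * D + (A - A') := by
  have hD0 : 0 ≤ D := (abs_nonneg _).trans hD
  calc |A' * p' - A * p| = |A * (p' - p) + (A' - A) * p'| := by congr 1; ring
    _ ≤ |A * (p' - p)| + |(A' - A) * p'| := abs_add_le _ _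
    _ = A * |p' - p| + (A - A') * |p'| := by
        rw [abs_mul, abs_mul, abs_of_nonneg hA, abs_of_nonpos (by linarith : A' - A ≤ 0)]; ring
    _ ≤ A₀ * D + (A - A') * 1 := by
        gcongr
        linarith
    _ = _ := by ring

/-- the curve as a function -/
noncomputable def gam (m n k : ℕ) (τ z₀ β : ℝ) (Θ : ℝ) : ℝ × ℝ :=
  (rt m (Rr k (z₀ + 2 * k * Θ) * Real.cos (β + Θ)),
    τ * rt n (Rr k (z₀ + 2 * k * Θ) * Real.sin (β + Θ)))

/-- amplitude -/
noncomputable def amp (m k : ℕ) (z : ℝ) : ℝ := Rr k z ^ ((m:ℝ)⁻¹)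

lemma amp_pos {m k : ℕ} {z : ℝ} (hz : 0 < z) : 0 < amp m k z := Real.rpow_pos_of_pos (Rr_pos hz) _

lemma amp_anti {m k : ℕ} {z w : ℝ} (hz : 0 < z) (hzw : z ≤ w) : amp m k w ≤ amp m k z :=
  Real.rpow_le_rpow (Rr_pos (hz.trans_le hzw)).le (Rr_anti hz hzw) (by positivity)

lemma amp_eq {m k : ℕ} {z : ℝ} (hz : 0 < z) : amp m k z = z ^ (-((2 * (k:ℝ))⁻¹ * (m:ℝ)⁻¹)) := by
  unfold amp Rr
  rw [← Real.rpow_mul hz.le]; congr 1; ring

lemma gam_fst {m n k : ℕ} {τ z₀ β Θ : ℝ} (hz : 0 < z₀ + 2 * k * Θ) :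
    (gam m n k τ z₀ β Θ).1 = amp m k (z₀ + 2 * k * Θ) * rt m (Real.cos (β + Θ)) := by
  unfold gam amp
  rw [rt_mul (Rr_pos hz)]

lemma gam_snd {m n k : ℕ} {τ z₀ β Θ : ℝ} (hz : 0 < z₀ + 2 * k * Θ) :
    (gam m n k τ z₀ β Θ).2 = τ * (amp n k (z₀ + 2 * k * Θ) *
      rt n (Real.cos (β + Θ - Real.pi / 2))) := by
  unfold gam amp
  simp only
  rw [rt_mul (Rr_pos hz), Real.cos_sub_pi_div_two]

/-- area of the neighbourhood of a half turn -/
lemma block_vol {m n k : ℕ} (hm : 0 < m) (hn : 0 < n) {z₀ τ β a ε : ℝ} (hz₀ : 0 < z₀)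
    (hτ : τ = 1 ∨ τ = -1) (ha : 0 ≤ a) (hε : 0 < ε) :
    volume (thick (gam m n k τ z₀ β '' Icc a (a + Real.pi)) ε) ≤
      ENNReal.ofReal (36 * ε ^ 2 *
        (3 * (amp m k (z₀ + 2 * k * a) + amp n k (z₀ + 2 * k * a)) / ε + 1)) := by
  have hπ := Real.pi_pos
  set A₀ := amp m k (z₀ + 2 * k * a) with hA₀
  set B₀ := amp n k (z₀ + 2 * k * a) with hB₀
  have hA₀p : 0 < A₀ := amp_pos (by positivity)
  have hB₀p : 0 < B₀ := amp_pos (by positivity)
  have hτ1 : |τ| = 1 := by rcases hτ with h | h <;> subst h <;> simp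
  refine thick_cover (F := fun Θ => A₀ * PP m (β + Θ) - amp m k (z₀ + 2 * k * Θ) +
    (B₀ * PP n (β + Θ - Real.pi / 2) - amp n k (z₀ + 2 * k * Θ))) (by linarith) hε ?_ ?_
  · intro s hs t ht hst
    have hs0 : 0 ≤ s := ha.trans hs.1
    have ht0 : 0 ≤ t := ha.trans ht.1
    have hzs : 0 < z₀ + 2 * k * s := by positivity
    have hzt : 0 < z₀ + 2 * k * t := by positivity
    have hzst : z₀ + 2 * k * s ≤ z₀ + 2 * k * t := by gcongr
    have hzas : z₀ + 2 * k * a ≤ z₀ + 2 * k * s := by gcongr; exact hs.1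
    have h1 := prod_diff (A := amp m k (z₀ + 2 * k * s)) (A' := amp m k (z₀ + 2 * k * t))
      (A₀ := A₀) (amp_pos hzs).le (amp_anti hzs hzst) (amp_anti (by positivity) hzas)
      (abs_rt_le hm (Real.abs_cos_le_one (β + t)))
      (PP_diff hm (by linarith : β + s ≤ β + t))
    have h2 := prod_diff (A := amp n k (z₀ + 2 * k * s)) (A' := amp n k (z₀ + 2 * k * t))
      (A₀ := B₀) (amp_pos hzs).le (amp_anti hzs hzst) (amp_anti (by positivity) hzas)
      (abs_rt_le hn (Real.abs_cos_le_one (β + t - Real.pi / 2)))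
      (PP_diff hn (by linarith : β + s - Real.pi / 2 ≤ β + t - Real.pi / 2))
    have h1' := (abs_nonneg _).trans h1
    have h2' := (abs_nonneg _).trans h2
    constructor
    · rw [gam_fst hzs, gam_fst hzt]
      refine h1.trans ?_
      linarith
    · rw [gam_snd hzs, gam_snd hzt, ← mul_sub, abs_mul, hτ1, one_mul]
      refine h2.trans ?_
      linarith
  · have e1 : β + (a + Real.pi) = (β + a) + Real.pi := by ring
    have e2 : (β + a) + Real.pi - Real.pi / 2 = (β + a - Real.pi / 2) + Real.pi := by ring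
    rw [e1, e2, PP_add_pi, PP_add_pi]
    have := amp_pos (m := m) (k := k) (z := z₀ + 2 * k * (a + Real.pi)) (by positivity)
    have := amp_pos (m := n) (k := k) (z := z₀ + 2 * k * (a + Real.pi)) (by positivity)
    linarith

/-- sum of the amplitudes -/
lemma sum_bd {s h z₀ : ℝ} (hs0 : 0 < s) (hs1 : s < 1) (hh : 0 < h) (hz₀ : 0 < z₀) (N : ℕ) :
    ∑ i ∈ Finset.range (N + 1), (z₀ + h * i) ^ (-s) ≤
      z₀ ^ (-s) + (z₀ + h * N) ^ (1 - s) / ((1 - s) * h) := by
  have hs2 : 0 < 1 - s := by linarith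
  induction N with
  | zero =>
    simp only [zero_add, Finset.range_one, Finset.sum_singleton, Nat.cast_zero, mul_zero, add_zero]
    have : 0 ≤ z₀ ^ (1 - s) / ((1 - s) * h) := by positivity
    linarith
  | succ N ih =>
    rw [Finset.sum_range_succ]
    push_cast
    set w := z₀ + h * ((N:ℝ) + 1) with hw
    have hwN : z₀ + h * N = w - h := by rw [hw]; ring
    have hwh : h < w := by rw [hw]; nlinarith [(Nat.cast_nonneg N : (0:ℝ) ≤ N)]
    have hw0 : 0 < w := hh.trans hwh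
    rw [hwN] at ih
    have hb := _root_.rpow_one_add_le_one_add_mul_self (s := -(h / w)) (p := 1 - s)
      (by have := (div_le_one hw0).2 hwh.le; linarith) hs2.le (by linarith)
    have e1 : (w - h) ^ (1 - s) = w ^ (1 - s) * (1 + -(h / w)) ^ (1 - s) := by
      rw [← Real.mul_rpow hw0.le (by have := (div_le_one hw0).2 hwh.le; linarith)]
      congr 1; field_simp; ring
    have e2 : w ^ (1 - s) = w * w ^ (-s) := by
      rw [sub_eq_add_neg, Real.rpow_add hw0, Real.rpow_one]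
    have hwp : 0 < w ^ (1 - s) := Real.rpow_pos_of_pos hw0 _
    have h3 : (w - h) ^ (1 - s) ≤ w ^ (1 - s) - (1 - s) * h * w ^ (-s) := by
      rw [e1]
      have := mul_le_mul_of_nonneg_left hb hwp.le
      refine this.trans (le_of_eq ?_)
      rw [e2]; field_simp; ring
    have h4 : (w - h) ^ (1 - s) / ((1 - s) * h) + w ^ (-s) ≤ w ^ (1 - s) / ((1 - s) * h) := by
      rw [div_add' _ _ _ (by positivity)]
      apply div_le_div_of_nonneg_right _ (by positivity)
      linarith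
    linarith

end Pool.Agent.X19.SP
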