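import Mathlib
import Pool.Agent.X19.SP.D

open Set Filter Topology MeasureTheory

namespace Pool.Agent.X19.SP

lemma sumA {m k : ℕ} (hm : 0 < m) (hk : 0 < k) {z₀ w : ℝ} (hz₀ : 0 < z₀) (N : ℕ)
    (hw : z₀ + 2 * k * (N * Real.pi) ≤ w) :
    ∑ i ∈ Finset.range (N + 1), amp m k (z₀ + 2 * k * (i * Real.pi)) ≤
      z₀ ^ (-((2 * (k:ℝ))⁻¹ * (m:ℝ)⁻¹)) + w * amp m k w *
        (1 / ((1 - (2 * (k:ℝ))⁻¹ * (m:ℝ)⁻¹) * (2 * k * Real.pi))) := by
  have hπ := Real.pi_pos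
  have hk1 : (1:ℝ) ≤ k := by exact_mod_cast hk
  have hm1 : (1:ℝ) ≤ m := by exact_mod_cast hm
  set s := (2 * (k:ℝ))⁻¹ * (m:ℝ)⁻¹ with hs
  have hs0 : 0 < s := by positivity
  have hs1 : s < 1 := by
    rw [hs, ← mul_inv]
    apply inv_lt_one_of_one_lt₀
    nlinarith
  have hs2 : 0 < 1 - s := by linarith
  have hw0 : 0 < w := by
    have : 0 < z₀ + 2 * k * (N * Real.pi) := by positivity
    linarith
  have h1 := sum_bd hs0 hs1 (show 0 < 2 * k * Real.pi by positivity) hz₀ N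
  have h2 : ∑ i ∈ Finset.range (N + 1), amp m k (z₀ + 2 * k * (i * Real.pi)) =
      ∑ i ∈ Finset.range (N + 1), (z₀ + 2 * k * Real.pi * i) ^ (-s) := by
    refine Finset.sum_congr rfl fun i _ => ?_
    rw [amp_eq (by positivity)]
    congr 1; ring
  rw [h2]
  refine h1.trans ?_
  have h3 : (z₀ + 2 * k * Real.pi * N) ^ (1 - s) ≤ w ^ (1 - s) :=
    Real.rpow_le_rpow (by positivity) (by
      have : 2 * (k:ℝ) * (N * Real.pi) = 2 * k * Real.pi * N := by ring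
      linarith) hs2.le
  have h4 : w ^ (1 - s) = w * amp m k w := by
    rw [amp_eq hw0, sub_eq_add_neg, Real.rpow_add hw0, Real.rpow_one]
  rw [← h4, mul_one_div]
  have h5 : (z₀ + 2 * k * Real.pi * N) ^ (1 - s) / ((1 - s) * (2 * k * Real.pi)) ≤
      w ^ (1 - s) / ((1 - s) * (2 * k * Real.pi)) :=
    div_le_div_of_nonneg_right h3 (by positivity)
  linarith

/-- upper bound for the area -/
lemma upper_vol {m n k : ℕ} (hm : 0 < m) (hn : 0 < n) (hmn : n < m) (hk : 0 < k) {z₀ τ : ℝ}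
    (β : ℝ) (hz₀ : 0 < z₀) (hτ : τ = 1 ∨ τ = -1) :
    ∃ r₀ : ℝ, 0 < r₀ ∧ ∃ C : ℝ, 0 < C ∧ ∀ R₁ : ℝ, 0 < R₁ → R₁ < r₀ →
      volume (nbhd (crv m n k τ z₀ β) (R₁ ^ (2 * k) * R₁ ^ ((n:ℝ)⁻¹))) ≤
        ENNReal.ofReal (C * (R₁ ^ ((m:ℝ)⁻¹) * R₁ ^ ((n:ℝ)⁻¹))) := by
  have hπ := Real.pi_pos
  have hk1 : (1:ℝ) ≤ k := by exact_mod_cast hk
  have hm1 : (1:ℝ) ≤ m := by exact_mod_cast hm
  have hn1 : (1:ℝ) ≤ n := by exact_mod_cast hn
  have hmn1 : (n:ℝ) ≤ m := by exact_mod_cast hmn.le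
  set K : ℕ → ℝ := fun m => z₀ ^ (-((2 * (k:ℝ))⁻¹ * (m:ℝ)⁻¹)) +
    1 / ((1 - (2 * (k:ℝ))⁻¹ * (m:ℝ)⁻¹) * (2 * k * Real.pi)) with hK
  have hKpos : ∀ m : ℕ, 0 < m → 0 < z₀ ^ (-((2 * (k:ℝ))⁻¹ * (m:ℝ)⁻¹)) ∧
      0 < 1 / ((1 - (2 * (k:ℝ))⁻¹ * (m:ℝ)⁻¹) * (2 * k * Real.pi)) := by
    intro m hm
    have hm1 : (1:ℝ) ≤ m := by exact_mod_cast hm
    have hs1 : (2 * (k:ℝ))⁻¹ * (m:ℝ)⁻¹ < 1 := by
      rw [← mul_inv]
      apply inv_lt_one_of_one_lt₀
      nlinarith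
    have : 0 < 1 - (2 * (k:ℝ))⁻¹ * (m:ℝ)⁻¹ := by linarith
    exact ⟨Real.rpow_pos_of_pos hz₀ _, by positivity⟩
  have hKm := hKpos m hm
  have hKn := hKpos n hn
  refine ⟨(1 + z₀)⁻¹, by positivity, 108 + 108 * (K m + K n), by
    simp only [hK]; linarith [hKm.1, hKm.2, hKn.1, hKn.2], ?_⟩
  intro R₁ hR hR'
  have hRz : R₁ * (1 + z₀) < 1 := by
    have := mul_lt_mul_of_pos_right hR' (show 0 < 1 + z₀ by positivity)
    rwa [inv_mul_cancel₀ (by positivity)] at this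
  have hR1 : R₁ ≤ 1 := by nlinarith
  set e := R₁ ^ (2 * k) with he
  set a := R₁ ^ ((m:ℝ)⁻¹) with ha
  set b := R₁ ^ ((n:ℝ)⁻¹) with hb
  have he0 : 0 < e := by positivity
  have ha0 : 0 < a := Real.rpow_pos_of_pos hR _
  have hb0 : 0 < b := Real.rpow_pos_of_pos hR _
  have heR : e ≤ R₁ := by
    calc e ≤ R₁ ^ 1 := pow_le_pow_of_le_one hR.le hR1 (by omega)
      _ = R₁ := pow_one _
  have hba : b ≤ a := Real.rpow_le_rpow_of_exponent_ge hR hR1 (by gcongr)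
  have ha1 : a ≤ 1 := Real.rpow_le_one hR.le hR1 (by positivity)
  have hb1 : b ≤ 1 := Real.rpow_le_one hR.le hR1 (by positivity)
  have hRb : R₁ ≤ b := by
    have : R₁ ^ (1:ℝ) ≤ b := Real.rpow_le_rpow_of_exponent_ge hR hR1 (inv_le_one_of_one_le₀ hn1)
    rwa [Real.rpow_one] at this
  have hea : e ≤ a := heR.trans (hRb.trans hba)
  have he1 : e ≤ 1 := heR.trans hR1
  set ε := e * b with hε
  have hε0 : 0 < ε := by positivity
  have hεb : ε ≤ b := by rw [hε]; nlinarith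
  have hεa : ε ≤ a := hεb.trans hba
  set w := e⁻¹ with hw
  have hw0 : 0 < w := by positivity
  have hwe : e * w = 1 := mul_inv_cancel₀ he0.ne'
  have hw1 : 1 + z₀ < w := by
    rw [hw, lt_inv_comm₀ (by positivity) he0]
    exact heR.trans_lt hR'
  have hRw : Rr k w = R₁ := by
    have : w = ((R₁ ^ 2) ^ k)⁻¹ := by rw [hw, he, ← pow_mul]
    rw [this, Rr_eq_sqrt hk (by positivity), Real.sqrt_sq hR.le]
  have hampm : amp m k w = a := by unfold amp; rw [hRw]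
  have hampn : amp n k w = b := by unfold amp; rw [hRw]
  set Θ₁ := (w - z₀) / (2 * k) with hΘ₁
  have hkk : (0:ℝ) < 2 * k := by positivity
  have hΘ₁0 : 0 ≤ Θ₁ := div_nonneg (by linarith) hkk.le
  have hΘ₁' : z₀ + 2 * k * Θ₁ = w := by rw [hΘ₁]; field_simp; ring
  set N := ⌊Θ₁ / Real.pi⌋₊ with hN
  have hNle : (N:ℝ) * Real.pi ≤ Θ₁ := by
    have := Nat.floor_le (show 0 ≤ Θ₁ / Real.pi by positivity)
    rwa [le_div_iff₀ hπ] at this
  have hzN : z₀ + 2 * k * (N * Real.pi) ≤ w := by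
    rw [← hΘ₁']; gcongr
  have hNw : (N:ℝ) ≤ w := by
    have h1 : 2 * (k:ℝ) * (N * Real.pi) ≤ w := by linarith
    have h2 : (N:ℝ) ≤ 2 * (k:ℝ) * (N * Real.pi) := by
      have : (1:ℝ) ≤ 2 * k * Real.pi := by nlinarith [Real.pi_gt_three]
      have hN0 : (0:ℝ) ≤ N := Nat.cast_nonneg N
      nlinarith
    linarith
  -- nucleus
  set Q : Set (ℝ × ℝ) := Icc (-(3 * a)) (3 * a) ×ˢ Icc (-(3 * b)) (3 * b) with hQ
  have hQvol : volume Q = ENNReal.ofReal (36 * (a * b)) := by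
    rw [hQ, Measure.volume_eq_prod, Measure.prod_prod, Real.volume_Icc, Real.volume_Icc,
      ← ENNReal.ofReal_mul (by linarith)]
    congr 1; ring
  have hτ1 : |τ| = 1 := by rcases hτ with h | h <;> subst h <;> simp
  have hsub : nbhd (crv m n k τ z₀ β) ε ⊆ Q ∪ ⋃ i ∈ Finset.range (N + 1),
      thick (gam m n k τ z₀ β '' Icc (i * Real.pi) (i * Real.pi + Real.pi)) ε := by
    intro p hp
    obtain ⟨q, ⟨Θ, hΘ, rfl⟩, hp1, hp2⟩ := nbhd_sub_thick hε0 hp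
    change |p.1 - (gam m n k τ z₀ β Θ).1| ≤ 2 * ε at hp1
    change |p.2 - (gam m n k τ z₀ β Θ).2| ≤ 2 * ε at hp2
    have hz : 0 < z₀ + 2 * k * Θ := by positivity
    rcases le_or_gt w (z₀ + 2 * k * Θ) with hc | hc
    · left
      have h1 : |(gam m n k τ z₀ β Θ).1| ≤ a := by
        rw [gam_fst hz, abs_mul, abs_of_pos (amp_pos hz)]
        have h2 := amp_anti (m := m) (k := k) hw0 hc
        rw [hampm] at h2
        have h3 := abs_rt_le hm (Real.abs_cos_le_one (β + Θ))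
        calc _ ≤ a * 1 := mul_le_mul h2 h3 (abs_nonneg _) ha0.le
          _ = a := mul_one a
      have h1' : |(gam m n k τ z₀ β Θ).2| ≤ b := by
        rw [gam_snd hz, abs_mul, hτ1, one_mul, abs_mul, abs_of_pos (amp_pos hz)]
        have h2 := amp_anti (m := n) (k := k) hw0 hc
        rw [hampn] at h2
        have h3 := abs_rt_le hn (Real.abs_cos_le_one (β + Θ - Real.pi / 2))
        calc _ ≤ b * 1 := mul_le_mul h2 h3 (abs_nonneg _) hb0.le
          _ = b := mul_one b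
      rw [abs_le] at hp1 hp2 h1 h1'
      exact ⟨⟨by linarith, by linarith⟩, ⟨by linarith, by linarith⟩⟩
    · right
      simp only [mem_iUnion, Finset.mem_range]
      have hΘΘ : Θ ≤ Θ₁ := by
        rw [← hΘ₁'] at hc
        have h3 : 2 * (k:ℝ) * Θ ≤ 2 * k * Θ₁ := by linarith
        exact le_of_mul_le_mul_left h3 hkk
      refine ⟨⌊Θ / Real.pi⌋₊, ?_, gam m n k τ z₀ β Θ, ⟨Θ, ⟨?_, ?_⟩, rfl⟩, hp1, hp2⟩
      · have : ⌊Θ / Real.pi⌋₊ ≤ N := Nat.floor_le_floor (div_le_div_of_nonneg_right hΘΘ hπ.le)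
        omega
      · have := Nat.floor_le (show 0 ≤ Θ / Real.pi by positivity)
        rwa [le_div_iff₀ hπ] at this
      · have := Nat.lt_floor_add_one (Θ / Real.pi)
        rw [div_lt_iff₀ hπ] at this
        linarith
  have hsum : ∑ i ∈ Finset.range (N + 1), volume
      (thick (gam m n k τ z₀ β '' Icc (i * Real.pi) (i * Real.pi + Real.pi)) ε) ≤
      ENNReal.ofReal (∑ i ∈ Finset.range (N + 1), 36 * ε ^ 2 *
        (3 * (amp m k (z₀ + 2 * k * (i * Real.pi)) + amp n k (z₀ + 2 * k * (i * Real.pi))) / ε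
          + 1)) := by
    rw [ENNReal.ofReal_sum_of_nonneg]
    · exact Finset.sum_le_sum fun i _ => block_vol hm hn hz₀ hτ (by positivity) hε0
    · intro i _
      have := amp_pos (m := m) (k := k) (z := z₀ + 2 * k * (i * Real.pi)) (by positivity)
      have := amp_pos (m := n) (k := k) (z := z₀ + 2 * k * (i * Real.pi)) (by positivity)
      positivity
  have hSm := sumA (m := m) hm hk hz₀ N hzN
  have hSn := sumA (m := n) hn hk hz₀ N hzN
  rw [hampm] at hSm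
  rw [hampn] at hSn
  set SA := ∑ i ∈ Finset.range (N + 1), amp m k (z₀ + 2 * k * (i * Real.pi)) with hSA
  set SB := ∑ i ∈ Finset.range (N + 1), amp n k (z₀ + 2 * k * (i * Real.pi)) with hSB
  have hsumeq : ∑ i ∈ Finset.range (N + 1), 36 * ε ^ 2 *
        (3 * (amp m k (z₀ + 2 * k * (i * Real.pi)) + amp n k (z₀ + 2 * k * (i * Real.pi))) / ε
          + 1) = 108 * (ε * SA) + 108 * (ε * SB) + 36 * ε ^ 2 * (N + 1) := by
    rw [← Finset.mul_sum, Finset.sum_add_distrib, Finset.sum_const, Finset.card_range,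
      ← Finset.sum_div, ← Finset.mul_sum, Finset.sum_add_distrib, ← hSA, ← hSB, nsmul_eq_mul]
    push_cast
    field_simp
    ring
  have hab : 0 < a * b := by positivity
  have heb : e * b ≤ a * b := by gcongr
  have hbb : b * b ≤ a * b := by gcongr
  have hA : ε * SA ≤ K m * (a * b) := by
    calc ε * SA ≤ ε * _ := mul_le_mul_of_nonneg_left hSm hε0.le
      _ = z₀ ^ (-((2 * (k:ℝ))⁻¹ * (m:ℝ)⁻¹)) * (e * b) + (e * w) * (a * b) *
          (1 / ((1 - (2 * (k:ℝ))⁻¹ * (m:ℝ)⁻¹) * (2 * k * Real.pi))) := by rw [hε]; ring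
      _ ≤ z₀ ^ (-((2 * (k:ℝ))⁻¹ * (m:ℝ)⁻¹)) * (a * b) + 1 * (a * b) *
          (1 / ((1 - (2 * (k:ℝ))⁻¹ * (m:ℝ)⁻¹) * (2 * k * Real.pi))) := by
          rw [hwe]
          have := mul_le_mul_of_nonneg_left heb hKm.1.le
          linarith
      _ = K m * (a * b) := by simp only [hK]; ring
  have hB : ε * SB ≤ K n * (a * b) := by
    calc ε * SB ≤ ε * _ := mul_le_mul_of_nonneg_left hSn hε0.le
      _ = z₀ ^ (-((2 * (k:ℝ))⁻¹ * (n:ℝ)⁻¹)) * (e * b) + (e * w) * (b * b) *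
          (1 / ((1 - (2 * (k:ℝ))⁻¹ * (n:ℝ)⁻¹) * (2 * k * Real.pi))) := by rw [hε]; ring
      _ ≤ z₀ ^ (-((2 * (k:ℝ))⁻¹ * (n:ℝ)⁻¹)) * (a * b) + 1 * (a * b) *
          (1 / ((1 - (2 * (k:ℝ))⁻¹ * (n:ℝ)⁻¹) * (2 * k * Real.pi))) := by
          rw [hwe]
          have h1 := mul_le_mul_of_nonneg_left heb hKn.1.le
          have h2 := mul_le_mul_of_nonneg_left hbb hKn.2.le
          linarith
      _ = K n * (a * b) := by simp only [hK]; ring
  have hNN : 36 * ε ^ 2 * ((N:ℝ) + 1) ≤ 72 * (a * b) := by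
    have h1 : (N:ℝ) + 1 ≤ 2 * w := by linarith
    calc 36 * ε ^ 2 * ((N:ℝ) + 1) ≤ 36 * ε ^ 2 * (2 * w) := by gcongr
      _ = 72 * ((e * w) * (b * (e * b))) := by rw [hε]; ring
      _ = 72 * (b * (e * b)) := by rw [hwe, one_mul]
      _ ≤ 72 * (1 * (a * b)) := by gcongr
      _ = _ := by ring
  calc volume (nbhd (crv m n k τ z₀ β) ε)
      ≤ volume (Q ∪ ⋃ i ∈ Finset.range (N + 1),
        thick (gam m n k τ z₀ β '' Icc (i * Real.pi) (i * Real.pi + Real.pi)) ε) :=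
        measure_mono hsub
    _ ≤ volume Q + volume (⋃ i ∈ Finset.range (N + 1),
        thick (gam m n k τ z₀ β '' Icc (i * Real.pi) (i * Real.pi + Real.pi)) ε) :=
        measure_union_le _ _
    _ ≤ volume Q + ∑ i ∈ Finset.range (N + 1), volume
        (thick (gam m n k τ z₀ β '' Icc (i * Real.pi) (i * Real.pi + Real.pi)) ε) := by
        gcongr
        exact measure_biUnion_finset_le _ _
    _ ≤ ENNReal.ofReal (36 * (a * b)) + ENNReal.ofReal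
        (108 * (ε * SA) + 108 * (ε * SB) + 36 * ε ^ 2 * (N + 1)) := by
        rw [hQvol, ← hsumeq]
        gcongr
    _ ≤ ENNReal.ofReal (36 * (a * b)) + ENNReal.ofReal
        (108 * (K m * (a * b)) + 108 * (K n * (a * b)) + 72 * (a * b)) := by
        gcongr
    _ = ENNReal.ofReal ((108 + 108 * (K m + K n)) * (a * b)) := by
        have hKm0 : 0 < K m := by simp only [hK]; linarith [hKm.1, hKm.2]
        have hKn0 : 0 < K n := by simp only [hK]; linarith [hKn.1, hKn.2]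
        rw [← ENNReal.ofReal_add (by positivity) (by positivity)]
        congr 1; ring

/-- from two-sided bounds to the dimension -/
lemma dim_of_bounds {V : ℝ → ENNReal} {κ c C : ℝ} (hc : 0 < c) (hC : 0 < C)
    (h : ∀ᶠ ε in 𝓝[>] (0:ℝ), ENNReal.ofReal (c * ε ^ κ) ≤ V ε ∧ V ε ≤ ENNReal.ofReal (C * ε ^ κ)) :
    Tendsto (fun ε : ℝ => 2 - Real.log (V ε).toReal / Real.log ε) (𝓝[>] 0) (𝓝 (2 - κ)) := by
  refine Tendsto.const_sub 2 ?_
  have hlog := Real.tendsto_log_nhdsGT_zero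
  have hinv : Tendsto (fun ε : ℝ => (Real.log ε)⁻¹) (𝓝[>] 0) (𝓝 0) :=
    tendsto_inv_atBot_zero.comp hlog
  have h1 : ∀ K : ℝ, Tendsto (fun ε : ℝ => κ + K * (Real.log ε)⁻¹) (𝓝[>] 0) (𝓝 κ) := by
    intro K
    have := (hinv.const_mul K).const_add κ
    simpa using this
  refine tendsto_of_tendsto_of_tendsto_of_le_of_le' (h1 (Real.log C)) (h1 (Real.log c)) ?_ ?_
  · filter_upwards [h, self_mem_nhdsWithin, hlog.eventually_lt_atBot 0] with ε hε hε0 hl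
    have hε0' : (0:ℝ) < ε := hε0
    have hp : 0 < ε ^ κ := Real.rpow_pos_of_pos hε0' _
    have hVt : V ε ≠ ⊤ := ne_top_of_le_ne_top ENNReal.ofReal_ne_top hε.2
    have hlow : c * ε ^ κ ≤ (V ε).toReal := (ENNReal.ofReal_le_iff_le_toReal hVt).1 hε.1
    have hup : (V ε).toReal ≤ C * ε ^ κ := ENNReal.toReal_le_of_le_ofReal (by positivity) hε.2
    have hVp : 0 < (V ε).toReal := lt_of_lt_of_le (by positivity) hlow
    have h2 := Real.log_le_log hVp hup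
    rw [Real.log_mul hC.ne' hp.ne', Real.log_rpow hε0'] at h2
    rw [le_div_iff_of_neg hl]
    have : (κ + Real.log C * (Real.log ε)⁻¹) * Real.log ε = Real.log C + κ * Real.log ε := by
      field_simp [hl.ne]
      ring
    rw [this]; exact h2
  · filter_upwards [h, self_mem_nhdsWithin, hlog.eventually_lt_atBot 0] with ε hε hε0 hl
    have hε0' : (0:ℝ) < ε := hε0
    have hp : 0 < ε ^ κ := Real.rpow_pos_of_pos hε0' _
    have hVt : V ε ≠ ⊤ := ne_top_of_le_ne_top ENNReal.ofReal_ne_top hε.2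
    have hlow : c * ε ^ κ ≤ (V ε).toReal := (ENNReal.ofReal_le_iff_le_toReal hVt).1 hε.1
    have h2 := Real.log_le_log (by positivity) hlow
    rw [Real.log_mul hc.ne' hp.ne', Real.log_rpow hε0'] at h2
    rw [div_le_iff_of_neg hl]
    have : (κ + Real.log c * (Real.log ε)⁻¹) * Real.log ε = Real.log c + κ * Real.log ε := by
      field_simp [hl.ne]
      ring
    rw [this]; exact h2

/-- the area bounds for the explicit spiral -/
theorem crv_bounds {m n k : ℕ} (hm : Odd m) (hn : Odd n) (hmn : n < m) (hk : 0 < k) {z₀ τ : ℝ}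
    (β : ℝ) (hz₀ : 0 < z₀) (hτ : τ = 1 ∨ τ = -1) :
    ∃ c C : ℝ, 0 < c ∧ 0 < C ∧ ∀ᶠ ε in 𝓝[>] (0:ℝ),
      ENNReal.ofReal (c * ε ^ ((1 + (n:ℝ) / m) / (1 + 2 * k * n))) ≤
        volume (nbhd (crv m n k τ z₀ β) ε) ∧
      volume (nbhd (crv m n k τ z₀ β) ε) ≤
        ENNReal.ofReal (C * ε ^ ((1 + (n:ℝ) / m) / (1 + 2 * k * n))) := by
  have hπ := Real.pi_pos
  have hm0 := hm.pos
  have hn0 := hn.pos
  have hm1 : (0:ℝ) < m := by exact_mod_cast hm0
  have hn1 : (0:ℝ) < n := by exact_mod_cast hn0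
  have hk1 : (0:ℝ) < k := by exact_mod_cast hk
  obtain ⟨r₁, hr₁, c, hc, hlow⟩ := lower_vol hm hn hk β hz₀ hτ
  obtain ⟨r₂, hr₂, C, hC, hup⟩ := upper_vol hm0 hn0 hmn hk β hz₀ hτ
  set D : ℝ := 2 * k + (n:ℝ)⁻¹ with hD
  set E : ℝ := (m:ℝ)⁻¹ + (n:ℝ)⁻¹ with hE
  have hD0 : 0 < D := by positivity
  have hκ : (1 + (n:ℝ) / m) / (1 + 2 * k * n) = E / D := by
    rw [hE, hD]; field_simp
    ring
  rw [hκ]
  set C₂ : ℝ := 64 * Real.pi * k with hC₂
  have hC₂0 : 0 < C₂ := by positivity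
  have hpow : ∀ x : ℝ, 0 < x → (x ^ D⁻¹) ^ (2 * k) * (x ^ D⁻¹) ^ ((n:ℝ)⁻¹) = x := by
    intro x hx
    rw [← Real.rpow_natCast, ← Real.rpow_mul hx.le, ← Real.rpow_mul hx.le, ← Real.rpow_add hx]
    have : D⁻¹ * ((2 * k : ℕ):ℝ) + D⁻¹ * (n:ℝ)⁻¹ = 1 := by
      push_cast
      rw [← mul_add, ← hD, inv_mul_cancel₀ hD0.ne']
    rw [this, Real.rpow_one]
  have hpow2 : ∀ x : ℝ, 0 < x → (x ^ D⁻¹) ^ ((m:ℝ)⁻¹) * (x ^ D⁻¹) ^ ((n:ℝ)⁻¹) = x ^ (E / D) := by
    intro x hx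
    rw [← Real.rpow_mul hx.le, ← Real.rpow_mul hx.le, ← Real.rpow_add hx]
    congr 1
    rw [hE]; field_simp
  have hsmall : ∀ r c' : ℝ, 0 < r → 0 < c' → ∀ᶠ ε in 𝓝[>] (0:ℝ), (ε / c') ^ D⁻¹ < r := by
    intro r c' hr hc'
    have h1 : Tendsto (fun ε : ℝ => (ε / c') ^ D⁻¹) (𝓝[>] 0) (𝓝 0) := by
      have h2 : ContinuousAt (fun ε : ℝ => (ε / c') ^ D⁻¹) 0 := by
        refine ContinuousAt.rpow_const (by fun_prop) (Or.inr (by positivity))
      have h3 := h2.tendsto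
      simp only [zero_div] at h3
      rw [Real.zero_rpow (by positivity)] at h3
      exact h3.mono_left nhdsWithin_le_nhds
    exact h1.eventually_lt_const hr
  refine ⟨c * (C₂⁻¹) ^ (E / D), C, by positivity, hC, ?_⟩
  filter_upwards [hsmall r₁ C₂ hr₁ hC₂0, hsmall r₂ 1 hr₂ one_pos, self_mem_nhdsWithin]
    with ε h1 h2 hε
  have hε0 : (0:ℝ) < ε := hε
  rw [div_one] at h2
  constructor
  · have h3 := hlow ((ε / C₂) ^ D⁻¹) (Real.rpow_pos_of_pos (by positivity) _) h1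
    rw [hpow _ (by positivity), hpow2 _ (by positivity), mul_div_cancel₀ _ hC₂0.ne'] at h3
    have e1 : c * (ε / C₂) ^ (E / D) = c * (C₂⁻¹) ^ (E / D) * ε ^ (E / D) := by
      rw [div_eq_mul_inv ε C₂, Real.mul_rpow hε0.le (by positivity)]; ring
    rw [e1] at h3
    exact h3
  · have h3 := hup (ε ^ D⁻¹) (Real.rpow_pos_of_pos hε0 _) h2
    rw [hpow _ hε0, hpow2 _ hε0] at h3
    exact h3

end Pool.Agent.X19.SP
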