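import Mathlib
import Pool.Agent.X19.SP.E

open Set Filter Topology MeasureTheory

namespace Pool.Agent.X19.SP

lemma nbhd_mono {S T : Set (ℝ × ℝ)} (h : S ⊆ T) (ε : ℝ) : nbhd S ε ⊆ nbhd T ε := by
  intro p hp δ hδ
  obtain ⟨q, hq, h1⟩ := hp δ hδ
  exact ⟨q, h hq, h1⟩

/-- the area bounds, for the portion of a trajectory inside a neighbourhood of the origin. -/
theorem main_bounds {m n k : ℕ} (hm : Odd m) (hn : Odd n) (hmn : n < m) (hk : 0 < k) {σ : ℝ}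
    (hσ : σ = 1 ∨ σ = -1) {x y : ℝ → ℝ} {t₀ : ℝ}
    (hode : ∀ t, 0 ≤ -σ * (t - t₀) →
      HasDerivAt x (-(n * y t ^ (2 * n - 1)) +
        σ * n * x t ^ m * y t ^ (n - 1) * rho m n (x t) (y t) ^ k) t ∧
      HasDerivAt y (m * x t ^ (2 * m - 1) +
        σ * m * x t ^ (m - 1) * y t ^ n * rho m n (x t) (y t) ^ k) t)
    (hne : ∀ t, 0 ≤ -σ * (t - t₀) → (x t, y t) ≠ (0, 0))
    (hlim : Tendsto (fun s => (x (t₀ - σ * s), y (t₀ - σ * s))) atTop (𝓝 (0, 0)))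
    {W : Set (ℝ × ℝ)} (hW : W ∈ 𝓝 ((0, 0) : ℝ × ℝ)) :
    ∃ c C : ℝ, 0 < c ∧ 0 < C ∧ ∀ᶠ ε in 𝓝[>] (0:ℝ),
      ENNReal.ofReal (c * ε ^ ((1 + (n:ℝ) / m) / (1 + 2 * k * n))) ≤
        volume (nbhd {p | p ∈ W ∧ ∃ t, 0 ≤ -σ * (t - t₀) ∧ p = (x t, y t)} ε) ∧
      volume (nbhd {p | p ∈ W ∧ ∃ t, 0 ≤ -σ * (t - t₀) ∧ p = (x t, y t)} ε) ≤
        ENNReal.ofReal (C * ε ^ ((1 + (n:ℝ) / m) / (1 + 2 * k * n))) := by
  have hσ2 : σ * σ = 1 := by rcases hσ with h | h <;> subst h <;> norm_num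
  have hσ' : -σ = 1 ∨ -σ = -1 := by
    rcases hσ with h | h
    · right; rw [h]
    · left; rw [h]; norm_num
  -- the big tail
  obtain ⟨z₀, β, hz₀, hbig⟩ := spiral_eq hm hn hk hσ
    (S := {p | ∃ t, 0 ≤ -σ * (t - t₀) ∧ p = (x t, y t)}) ⟨x, y, t₀, hode, hne, hlim, rfl⟩
  -- the small tail
  obtain ⟨s₁, hs₁⟩ := ((hlim.eventually hW).and (eventually_ge_atTop (0:ℝ))).exists_forall_of_atTop
  have hs₁0 : 0 ≤ s₁ := (hs₁ s₁ le_rfl).2
  set t₁ := t₀ - σ * s₁ with ht₁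
  have hshift : ∀ t, -σ * (t - t₁) = -σ * (t - t₀) - s₁ := by
    intro t
    rw [ht₁]
    linear_combination (-s₁) * hσ2
  obtain ⟨z₁, β₁, hz₁, hsmall⟩ := spiral_eq hm hn hk hσ
    (S := {p | ∃ t, 0 ≤ -σ * (t - t₁) ∧ p = (x t, y t)})
    ⟨x, y, t₁, fun t ht => hode t (by rw [hshift] at ht; linarith),
      fun t ht => hne t (by rw [hshift] at ht; linarith), by
        have h1 : Tendsto (fun s : ℝ => s + s₁) atTop atTop :=
          tendsto_atTop_add_const_right _ _ tendsto_id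
        have h2 := hlim.comp h1
        refine h2.congr ?_
        intro s
        simp only [Function.comp]
        have : t₀ - σ * (s + s₁) = t₁ - σ * s := by rw [ht₁]; ring
        rw [this], rfl⟩
  obtain ⟨c₀, C, hc₀, hC, hb⟩ := crv_bounds hm hn hmn hk β hz₀ hσ'
  obtain ⟨c, C₁, hc, hC₁, hs⟩ := crv_bounds hm hn hmn hk β₁ hz₁ hσ'
  refine ⟨c, C, hc, hC, ?_⟩
  rw [← hbig] at hb
  rw [← hsmall] at hs
  filter_upwards [hb, hs] with ε h1 h2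
  constructor
  · refine h2.1.trans (measure_mono (nbhd_mono ?_ ε))
    rintro p ⟨t, ht, rfl⟩
    rw [hshift] at ht
    refine ⟨?_, t, by linarith, rfl⟩
    have h3 := (hs₁ (-σ * (t - t₀)) (by linarith)).1
    have h4 : t₀ - σ * (-σ * (t - t₀)) = t := by linear_combination (t - t₀) * hσ2
    rw [h4] at h3
    exact h3
  · refine le_trans (measure_mono (nbhd_mono ?_ ε)) h1.2
    rintro p ⟨_, h⟩
    exact h

end Pool.Agent.X19.SP
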